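import Mathlib
set_option autoImplicit false

/-!
# Few odd perfect numbers with `k` distinct prime factors

Let `N` be an odd perfect number with exactly `k` distinct prime factors.

* `card_divisors_le`: `N` has at most `2 ^ (k ^ 2 + k)` divisors
  (the classical bound `N < 2 ^ (4 ^ k)` only gives `2 ^ (2 k ^ 2)`).
* `result`: there are at most `(k * 2 ^ (k + 3)) ^ k = 2 ^ (k ^ 2 + O (k log k))` such `N`
  (known: Pollack 2011, at most `4 ^ (k ^ 2)`; Chen-Luo, at most `4 ^ (k ^ 2) / 2 ^ (k + 3)`).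

Proof.  For a partition `A ⊔ T ⊔ U` of the prime factors put
`W = ∏_{p ∈ A} p ^ (e_p + 1) * ∏_{p ∈ T} p`.  As long as `A` is not everything, there is either a
prime `p ∈ U` with `p ≤ 2 k W` or a prime `p ∈ T ∪ U` with `p ^ (e_p + 1) ≤ 2 k W` (`step`, the
descent of Heath-Brown, Cook and Nielsen).  A potential function (`potential`) shows that any such
sequence of moves forces `∏ (e_p + 1) ≤ 2 ^ (k ^ 2 + k)`.  By Wirsing's argument, `N` is
reconstructed from its primes `≤ 2 k` and the sequence of its exponents (`next_prime`,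
`cl_subset`, `card_le`); Rankin's trick bounds the number of exponent sequences (`G_le`).
-/

namespace Pool.Agent.Results.MP_f02ea4_nt.FewWithKPrimes
open Finset Real

/-- the key numerical inequality -/
theorem cosh_ineq (s : ℝ) (hs : 0 ≤ s) :
    (log 2 + log (cosh s)) ^ 2 ≤ s ^ 2 + (log 2) ^ 2 := by
  have hc0 : 0 ≤ log (cosh s) := Real.log_nonneg (Real.one_le_cosh s)
  have hc1 : log (cosh s) ≤ s ^ 2 / 2 := by
    rw [Real.log_le_iff_le_exp (Real.cosh_pos s)]
    exact Real.cosh_le_exp_half_sq s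
  have h2a := Real.log_two_lt_d9
  have h2b := Real.log_two_gt_d9
  rcases le_total s (11 / 10) with h | h
  · have h1 : log (cosh s) ^ 2 ≤ (3025 / 10000) * s ^ 2 := by
      have : log (cosh s) ^ 2 ≤ (s ^ 2 / 2) ^ 2 := pow_le_pow_left₀ hc0 hc1 2
      have h3 : s ^ 2 ≤ 121 / 100 := by nlinarith
      nlinarith [sq_nonneg s]
    have h2 : 2 * log 2 * log (cosh s) ≤ (6932 / 10000) * s ^ 2 := by
      have : 2 * log 2 * log (cosh s) ≤ 2 * log 2 * (s ^ 2 / 2) :=
        mul_le_mul_of_nonneg_left hc1 (by linarith)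
      nlinarith [sq_nonneg s]
    nlinarith [sq_nonneg s]
  · have h1 : log 2 + log (cosh s) ≤ s + exp (-(2 * s)) := by
      rw [← Real.log_mul (by norm_num) (Real.cosh_pos s).ne']
      have : 2 * cosh s = exp s * (1 + exp (-(2 * s))) := by
        rw [Real.cosh_eq, mul_add, ← Real.exp_add]
        ring_nf
      rw [this, Real.log_mul (Real.exp_pos s).ne' (by positivity), Real.log_exp]
      have := Real.log_le_sub_one_of_pos (show 0 < 1 + exp (-(2 * s)) by positivity)
      linarith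
    have h2 : exp (-(2 * s)) ≤ 1 / (1 + 2 * s + (2 * s) ^ 2 / 2) := by
      rw [Real.exp_neg, ← one_div]
      exact one_div_le_one_div_of_le (by positivity) (Real.quadratic_le_exp_of_nonneg (by linarith))
    have h3 : 0 < exp (-(2 * s)) := Real.exp_pos _
    set y := exp (-(2 * s)) with hy
    have h4 : y * (1 + 2 * s + (2 * s) ^ 2 / 2) ≤ 1 := by
      rw [le_div_iff₀ (by positivity)] at h2
      exact h2
    have h5 : y ≤ 1 / 5 := by nlinarith
    have h6 : y * s ≤ 1 / 5 := by nlinarith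
    have h0 : 0 ≤ log 2 + log (cosh s) := by linarith
    have : (log 2 + log (cosh s)) ^ 2 ≤ (s + y) ^ 2 := pow_le_pow_left₀ h0 h1 2
    nlinarith

theorem key_ineq (r : ℝ) (h0 : 0 < r) (h1 : r ≤ 1) :
    logb 2 (1 + r) * (logb 2 (1 + r) - logb 2 r) ≤ 1 := by
  set s := -(log r / 2) with hs
  have hs0 : 0 ≤ s := by
    have := Real.log_nonpos h0.le h1
    linarith
  have hr : r = exp (-(2 * s)) := by
    rw [hs]
    rw [show -(2 * -(log r / 2)) = log r by ring, Real.exp_log h0]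
  have hl : log (1 + r) = log 2 + log (cosh s) - s := by
    rw [← Real.log_mul (by norm_num) (Real.cosh_pos s).ne']
    have : 1 + r = exp (-s) * (2 * cosh s) := by
      rw [hr, Real.cosh_eq]
      have e1 : exp (-s) * (2 * ((exp s + exp (-s)) / 2)) = exp (-s) * exp s + exp (-s) * exp (-s) := by ring
      rw [e1, ← Real.exp_add, ← Real.exp_add]
      ring_nf
      simp
      ring
    rw [this, Real.log_mul (Real.exp_pos _).ne' (by positivity), Real.log_exp]
    ring
  have hlr : log r = -(2 * s) := by rw [hs]; ring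
  have hk := cosh_ineq s hs0
  have hl2 : 0 < log 2 := Real.log_pos (by norm_num)
  unfold Real.logb
  rw [hl, hlr]
  have : (log 2 + log (cosh s) - s) / log 2 * ((log 2 + log (cosh s) - s) / log 2 - -(2 * s) / log 2)
      = ((log 2 + log (cosh s)) ^ 2 - s ^ 2) / (log 2) ^ 2 := by
    field_simp
    ring
  rw [this, div_le_one (by positivity)]
  linarith

/-- the potential -/
noncomputable def psi (n x : ℝ) : ℝ := (max 0 (n - x)) ^ 2 / 2

theorem psi_nonneg (n x : ℝ) : 0 ≤ psi n x := by unfold psi; positivity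

theorem psi_mono {n n' x x' : ℝ} (hn : n' ≤ n) (hx : x ≤ x') : psi n' x' ≤ psi n x := by
  unfold psi
  have h : max 0 (n' - x') ≤ max 0 (n - x) := max_le_max le_rfl (by linarith)
  have := pow_le_pow_left₀ (le_max_left 0 (n' - x')) h 2
  linarith

theorem T_move (n L l : ℝ) (hl : 1 ≤ l) (hL : l ≤ L) :
    n * logb 2 (L + l) + psi n (logb 2 (L + l)) - logb 2 l
      ≤ n * logb 2 L + psi n (logb 2 L) + 1 := by
  have hl0 : 0 < l := by linarith
  have hL0 : 0 < L := by linarith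
  set r := l / L with hr
  have hr0 : 0 < r := by positivity
  have hr1 : r ≤ 1 := by rw [hr, div_le_one hL0]; exact hL
  have hk := key_ineq r hr0 hr1
  have e1 : logb 2 (L + l) = logb 2 L + logb 2 (1 + r) := by
    rw [← Real.logb_mul hL0.ne' (by positivity)]
    congr 1
    rw [hr]; field_simp
  have e2 : logb 2 l = logb 2 L + logb 2 r := by
    rw [← Real.logb_mul hL0.ne' hr0.ne']
    congr 1
    rw [hr]; field_simp
  have d0 : 0 ≤ logb 2 (1 + r) := Real.logb_nonneg (by norm_num) (by linarith)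
  have d1 : logb 2 (1 + r) ≤ 1 := by
    rw [Real.logb_le_iff_le_rpow (by norm_num) (by linarith)]
    norm_num
    linarith
  have y0 : 0 ≤ logb 2 l := Real.logb_nonneg (by norm_num) hl
  rw [e1, e2]
  rw [e2] at y0
  set x := logb 2 L
  set d := logb 2 (1 + r)
  set v := logb 2 r
  have v0 : v ≤ 0 := Real.logb_nonpos (by norm_num) hr0.le hr1
  -- x + v ≥ 0, v ≤ 0, 0 ≤ d ≤ 1, d (d - v) ≤ 1
  have hx : (-v) * (1 - d) ≤ x * (1 - d) := mul_le_mul_of_nonneg_right (by linarith) (by linarith)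
  rcases le_total (x + d) n with h | h
  · have e3 : psi n (x + d) = (n - x - d) ^ 2 / 2 := by
      unfold psi
      rw [max_eq_right (by linarith)]
      ring
    have e4 : psi n x = (n - x) ^ 2 / 2 := by
      unfold psi
      rw [max_eq_right (by linarith)]
    rw [e3, e4]
    nlinarith
  · have e3 : psi n (x + d) = 0 := by
      unfold psi
      rw [max_eq_left (by linarith)]
      norm_num
    have e4 := psi_nonneg n x
    rw [e3]
    have : n * d ≤ (x + d) * d := mul_le_mul_of_nonneg_right h d0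
    nlinarith

theorem A_move (n X X' f : ℝ) (hn : 1 ≤ n) (h1 : X ≤ X') (h2 : X' ≤ X + 1) (hf : f ≤ X) :
    (n - 1) * X' + (n - 1) * (n - 1 - 1) / 2 + psi (n - 1) X' + f
      ≤ n * X + n * (n - 1) / 2 + psi n X := by
  have := psi_mono (n := n) (n' := n - 1) (by linarith) h1
  nlinarith

/-- the descent game -/
theorem potential (I : Finset ℕ) (l q : ℕ → ℝ) (c : ℝ) (hc : 1 ≤ c)
    (hl : ∀ p ∈ I, 1 ≤ l p) (hq : ∀ p ∈ I, l p ≤ q p)
    (step : ∀ A T U : Finset ℕ, A ∪ T ∪ U = I → Disjoint A T → Disjoint A U → Disjoint T U →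
      (T ∪ U).Nonempty →
      (∃ p ∈ U, l p ≤ c + ∑ i ∈ A, q i + ∑ i ∈ T, l i) ∨
      (∃ p ∈ T ∪ U, q p ≤ c + ∑ i ∈ A, q i + ∑ i ∈ T, l i)) :
    ∀ (j : ℕ) (A T U : Finset ℕ), A ∪ T ∪ U = I → Disjoint A T → Disjoint A U → Disjoint T U →
      T.card + 2 * U.card = j →
      ∑ p ∈ T, logb 2 (q p) + ∑ p ∈ U, (logb 2 (q p) - logb 2 (l p)) ≤
        ((T.card : ℝ) + U.card) * logb 2 (c + ∑ i ∈ A, q i + ∑ i ∈ T, l i)
          + ((T.card : ℝ) + U.card) * ((T.card : ℝ) + U.card - 1) / 2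
          + psi ((T.card : ℝ) + U.card) (logb 2 (c + ∑ i ∈ A, q i + ∑ i ∈ T, l i)) + U.card := by
  intro j
  induction j using Nat.strong_induction_on with
  | _ j ih =>
  intro A T U hI hAT hAU hTU hj
  have memI : ∀ p, p ∈ I ↔ p ∈ A ∨ p ∈ T ∨ p ∈ U := by
    intro p; rw [← hI]; simp [or_assoc]
  have hlA : ∀ p ∈ A, 1 ≤ q p := fun p hp => by
    have := hl p ((memI p).2 (Or.inl hp)); have := hq p ((memI p).2 (Or.inl hp)); linarith
  have hlT : ∀ p ∈ T, 1 ≤ l p := fun p hp => hl p ((memI p).2 (Or.inr (Or.inl hp)))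
  set L := c + ∑ i ∈ A, q i + ∑ i ∈ T, l i with hL
  have hA0 : 0 ≤ ∑ i ∈ A, q i := Finset.sum_nonneg (fun p hp => by have := hlA p hp; linarith)
  have hT0 : 0 ≤ ∑ i ∈ T, l i := Finset.sum_nonneg (fun p hp => by have := hlT p hp; linarith)
  have hL1 : 1 ≤ L := by rw [hL]; linarith
  have hX0 : 0 ≤ logb 2 L := Real.logb_nonneg (by norm_num) hL1
  by_cases hne : (T ∪ U).Nonempty
  swap
  · rw [Finset.not_nonempty_iff_eq_empty, Finset.union_eq_empty] at hne
    obtain ⟨h1, h2⟩ := hne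
    subst h1; subst h2
    simp only [Finset.sum_empty, Finset.card_empty, Nat.cast_zero, add_zero, zero_mul, zero_div, zero_add]
    have := psi_nonneg 0 (logb 2 L)
    linarith
  have Amove : ∀ (X' : ℝ) (L' : ℝ), L ≤ L' → L' ≤ 2 * L → X' = logb 2 L' → logb 2 L ≤ X' ∧ X' ≤ logb 2 L + 1 := by
    intro X' L' h1 h2 h3
    subst h3
    constructor
    · exact Real.logb_le_logb_of_le (by norm_num) (by linarith) h1
    · have : logb 2 (2 * L) = logb 2 L + 1 := by
        rw [Real.logb_mul (by norm_num) (by linarith), Real.logb_self_eq_one (by norm_num)]; ring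
      rw [← this]
      exact Real.logb_le_logb_of_le (by norm_num) (by linarith) h2
  rcases step A T U hI hAT hAU hTU hne with ⟨p, hp, hpl⟩ | ⟨p, hp, hpq⟩
  · -- T-move
    have hpI : p ∈ I := (memI p).2 (Or.inr (Or.inr hp))
    have hpT : p ∉ T := fun h => (Finset.disjoint_left.1 hTU) h hp
    have hpA : p ∉ A := fun h => (Finset.disjoint_left.1 hAU) h hp
    have hc1 : (insert p T).card = T.card + 1 := Finset.card_insert_of_notMem hpT
    have hc2 : (U.erase p).card + 1 = U.card := Finset.card_erase_add_one hp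
    have h := ih (T.card + 1 + 2 * (U.erase p).card) (by omega) A (insert p T) (U.erase p)
      (by
        ext x; rw [memI]; simp only [Finset.mem_union, Finset.mem_insert, Finset.mem_erase]
        by_cases hx : x = p
        · subst hx; simp [hp]
        · simp [hx, or_assoc])
      (by rw [Finset.disjoint_insert_right]; exact ⟨hpA, hAT⟩)
      (hAU.mono_right (Finset.erase_subset _ _))
      (by
        rw [Finset.disjoint_insert_left]
        exact ⟨Finset.notMem_erase _ _, hTU.mono_right (Finset.erase_subset _ _)⟩)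
      (by rw [hc1])
    rw [Finset.sum_insert hpT, Finset.sum_insert hpT, hc1] at h
    have hs : ∑ i ∈ U, (logb 2 (q i) - logb 2 (l i)) =
        ∑ i ∈ U.erase p, (logb 2 (q i) - logb 2 (l i)) + (logb 2 (q p) - logb 2 (l p)) :=
      (Finset.sum_erase_add _ _ hp).symm
    have hLe : c + ∑ i ∈ A, q i + (l p + ∑ i ∈ T, l i) = L + l p := by rw [hL]; ring
    rw [hLe] at h
    have hcu : (U.card : ℝ) = (U.erase p).card + 1 := by exact_mod_cast hc2.symm
    have hn : ((T.card + 1 : ℕ) : ℝ) + ((U.erase p).card : ℝ) = (T.card : ℝ) + U.card := by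
      rw [hcu]; push_cast; ring
    rw [hn] at h
    have ht := T_move ((T.card : ℝ) + U.card) L (l p) (hl p hpI) hpl
    rw [hs]
    linarith
  · -- A-move
    rw [Finset.mem_union] at hp
    rcases hp with hp | hp
    · have hpI : p ∈ I := (memI p).2 (Or.inr (Or.inl hp))
      have hpU : p ∉ U := fun h => (Finset.disjoint_left.1 hTU) hp h
      have hpA : p ∉ A := fun h => (Finset.disjoint_left.1 hAT) h hp
      have hc1 : (T.erase p).card + 1 = T.card := Finset.card_erase_add_one hp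
      have h := ih ((T.erase p).card + 2 * U.card) (by omega) (insert p A) (T.erase p) U
        (by
          ext x; rw [memI]; simp only [Finset.mem_union, Finset.mem_insert, Finset.mem_erase]
          by_cases hx : x = p
          · subst hx; simp [hp]
          · simp [hx, or_assoc])
        (by
          rw [Finset.disjoint_insert_left]
          exact ⟨Finset.notMem_erase _ _, hAT.mono_right (Finset.erase_subset _ _)⟩)
        (by rw [Finset.disjoint_insert_left]; exact ⟨hpU, hAU⟩)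
        (hTU.mono_left (Finset.erase_subset _ _)) rfl
      rw [Finset.sum_insert hpA] at h
      have hs : ∑ i ∈ T, logb 2 (q i) = ∑ i ∈ T.erase p, logb 2 (q i) + logb 2 (q p) :=
        (Finset.sum_erase_add _ _ hp).symm
      have hs2 : ∑ i ∈ T, l i = ∑ i ∈ T.erase p, l i + l p := (Finset.sum_erase_add _ _ hp).symm
      have hLe : c + (q p + ∑ i ∈ A, q i) + ∑ i ∈ T.erase p, l i = L + (q p - l p) := by
        rw [hL, hs2]; ring
      rw [hLe] at h
      have hlp := hl p hpI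
      have hqp := hq p hpI
      obtain ⟨g1, g2⟩ := Amove _ (L + (q p - l p)) (by linarith) (by linarith) rfl
      have hf : logb 2 (q p) ≤ logb 2 L := Real.logb_le_logb_of_le (by norm_num) (by linarith) hpq
      have hct : (T.card : ℝ) = (T.erase p).card + 1 := by exact_mod_cast hc1.symm
      have hnn : ((T.erase p).card : ℝ) + (U.card : ℝ) = ((T.card : ℝ) + U.card) - 1 := by
        rw [hct]; ring
      rw [hnn] at h
      have ha := A_move ((T.card : ℝ) + U.card) (logb 2 L) _ (logb 2 (q p)) (by rw [hct]; have h7 : (0:ℝ) ≤ (T.card : ℝ) := Nat.cast_nonneg _; have h8 : (0:ℝ) ≤ ((U.erase p).card : ℝ) := Nat.cast_nonneg _; have h9 : (0:ℝ) ≤ ((T.erase p).card : ℝ) := Nat.cast_nonneg _; have h10 : (0:ℝ) ≤ (U.card : ℝ) := Nat.cast_nonneg _; linarith) g1 g2 hf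
      rw [hs]
      linarith
    · have hpI : p ∈ I := (memI p).2 (Or.inr (Or.inr hp))
      have hpT : p ∉ T := fun h => (Finset.disjoint_left.1 hTU) h hp
      have hpA : p ∉ A := fun h => (Finset.disjoint_left.1 hAU) h hp
      have hc1 : (U.erase p).card + 1 = U.card := Finset.card_erase_add_one hp
      have h := ih (T.card + 2 * (U.erase p).card) (by omega) (insert p A) T (U.erase p)
        (by
          ext x; rw [memI]; simp only [Finset.mem_union, Finset.mem_insert, Finset.mem_erase]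
          by_cases hx : x = p
          · subst hx; simp [hp]
          · simp [hx, or_assoc])
        (by rw [Finset.disjoint_insert_left]; exact ⟨hpT, hAT⟩)
        (by
          rw [Finset.disjoint_insert_left]
          exact ⟨Finset.notMem_erase _ _, hAU.mono_right (Finset.erase_subset _ _)⟩)
        (hTU.mono_right (Finset.erase_subset _ _)) rfl
      rw [Finset.sum_insert hpA] at h
      have hs : ∑ i ∈ U, (logb 2 (q i) - logb 2 (l i)) =
          ∑ i ∈ U.erase p, (logb 2 (q i) - logb 2 (l i)) + (logb 2 (q p) - logb 2 (l p)) :=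
        (Finset.sum_erase_add _ _ hp).symm
      have hLe : c + (q p + ∑ i ∈ A, q i) + ∑ i ∈ T, l i = L + q p := by
        rw [hL]; ring
      rw [hLe] at h
      have hlp := hl p hpI
      have hqp := hq p hpI
      obtain ⟨g1, g2⟩ := Amove _ (L + q p) (by linarith) (by linarith) rfl
      have hf : logb 2 (q p) ≤ logb 2 L := Real.logb_le_logb_of_le (by norm_num) (by linarith) hpq
      have hct : (U.card : ℝ) = (U.erase p).card + 1 := by exact_mod_cast hc1.symm
      have hnn : (T.card : ℝ) + ((U.erase p).card : ℝ) = ((T.card : ℝ) + U.card) - 1 := by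
        rw [hct]; ring
      rw [hnn] at h
      have hl0 : 0 ≤ logb 2 (l p) := Real.logb_nonneg (by norm_num) hlp
      have ha := A_move ((T.card : ℝ) + U.card) (logb 2 L) _ (logb 2 (q p)) (by rw [hct]; have h7 : (0:ℝ) ≤ (T.card : ℝ) := Nat.cast_nonneg _; have h8 : (0:ℝ) ≤ ((U.erase p).card : ℝ) := Nat.cast_nonneg _; have h9 : (0:ℝ) ≤ ((T.erase p).card : ℝ) := Nat.cast_nonneg _; have h10 : (0:ℝ) ≤ (U.card : ℝ) := Nat.cast_nonneg _; linarith) g1 g2 hf
      rw [hs]
      linarith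

/-- Weierstrass/Bernoulli: `1 - ∑ y ≤ ∏ (1 - y)` -/
theorem bern (S : Finset ℕ) (y : ℕ → ℝ) (h0 : ∀ p ∈ S, 0 ≤ y p) (h1 : ∀ p ∈ S, y p ≤ 1) :
    1 - ∑ p ∈ S, y p ≤ ∏ p ∈ S, (1 - y p) := by
  classical
  induction S using Finset.induction_on with
  | empty => simp
  | insert a S ha ih =>
    rw [Finset.sum_insert ha, Finset.prod_insert ha]
    have ih' := ih (fun p hp => h0 p (Finset.mem_insert_of_mem hp))
      (fun p hp => h1 p (Finset.mem_insert_of_mem hp))
    have ha0 := h0 a (Finset.mem_insert_self _ _)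
    have ha1 := h1 a (Finset.mem_insert_self _ _)
    have hp1 : ∏ p ∈ S, (1 - y p) ≤ 1 :=
      Finset.prod_le_one (fun p hp => by have := h1 p (Finset.mem_insert_of_mem hp); linarith)
        (fun p hp => by have := h0 p (Finset.mem_insert_of_mem hp); linarith)
    nlinarith

/-- sum of the divisors of a prime power -/
def sp (p e : ℕ) : ℕ := ∑ i ∈ range (e + 1), p ^ i

theorem sp_mul (p e : ℕ) (hp : 1 ≤ p) : sp p e * (p - 1) + 1 = p ^ (e + 1) := by
  unfold sp
  obtain ⟨r, rfl⟩ : ∃ r, p = r + 1 := ⟨p - 1, by omega⟩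
  simp only [Nat.add_sub_cancel]
  induction e with
  | zero => simp
  | succ e ih =>
    rw [Finset.sum_range_succ, add_mul, pow_succ (r+1) (e+1)]
    nlinarith

theorem sp_le (p e : ℕ) (hp : 2 ≤ p) : sp p e ≤ p ^ (e + 1) := by
  have := sp_mul p e (by omega)
  have h2 : sp p e * 1 ≤ sp p e * (p - 1) := Nat.mul_le_mul_left _ (by omega)
  omega

theorem sp_pos (p e : ℕ) : 0 < sp p e := by
  unfold sp
  rw [Finset.sum_range_succ']
  simp

/-- the step of the descent -/
theorem step (I : Finset ℕ) (e : ℕ → ℕ) (hI : ∀ p ∈ I, p.Prime) (h3 : ∀ p ∈ I, 3 ≤ p)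
    (he : ∀ p ∈ I, 1 ≤ e p) (hperf : ∏ p ∈ I, sp p (e p) = 2 * ∏ p ∈ I, p ^ (e p))
    (A T U : Finset ℕ) (hATU : A ∪ T ∪ U = I) (hAT : Disjoint A T) (hAU : Disjoint A U)
    (hTU : Disjoint T U) (hne : (T ∪ U).Nonempty) :
    (∃ p ∈ U, (p : ℝ) ≤ 2 * I.card * ((∏ i ∈ A, (i : ℝ) ^ (e i + 1)) * ∏ i ∈ T, (i : ℝ))) ∨
    (∃ p ∈ T ∪ U, (p : ℝ) ^ (e p + 1) ≤
        2 * I.card * ((∏ i ∈ A, (i : ℝ) ^ (e i + 1)) * ∏ i ∈ T, (i : ℝ))) := by
  classical
  have memI : ∀ p, p ∈ I ↔ p ∈ A ∨ p ∈ T ∨ p ∈ U := by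
    intro p; rw [← hATU]; simp
  have hAI : ∀ p ∈ A, p ∈ I := fun p hp => (memI p).2 (Or.inl hp)
  have hTI : ∀ p ∈ T, p ∈ I := fun p hp => (memI p).2 (Or.inr (Or.inl hp))
  have hUI : ∀ p ∈ U, p ∈ I := fun p hp => (memI p).2 (Or.inr (Or.inr hp))
  set a : ℕ → ℝ := fun p => 1 - 1 / (p : ℝ) with ha
  set b : ℕ → ℝ := fun p => 1 - 1 / (p : ℝ) ^ (e p + 1) with hb
  have hp0 : ∀ p ∈ I, (3 : ℝ) ≤ p := fun p hp => by exact_mod_cast h3 p hp
  have hQ : ∀ p ∈ I, (p : ℝ) < (p : ℝ) ^ (e p + 1) := by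
    intro p hp
    have h1 := hp0 p hp
    have h2 : (p : ℝ) ^ 1 < (p : ℝ) ^ (e p + 1) :=
      pow_lt_pow_right₀ (by linarith) (by have := he p hp; omega)
    simpa using h2
  have ha0 : ∀ p ∈ I, 0 < a p := by
    intro p hp
    have h1 := hp0 p hp
    simp only [ha]
    have : 1 / (p : ℝ) < 1 := by rw [div_lt_one (by linarith)]; linarith
    linarith
  have ha1 : ∀ p ∈ I, a p ≤ 1 := by
    intro p hp
    have h1 := hp0 p hp
    simp only [ha]
    have : 0 ≤ 1 / (p : ℝ) := by positivity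
    linarith
  have hab : ∀ p ∈ I, a p < b p := by
    intro p hp
    have h1 := hp0 p hp
    have h2 := hQ p hp
    simp only [ha, hb]
    have : 1 / (p : ℝ) ^ (e p + 1) < 1 / (p : ℝ) := one_div_lt_one_div_of_lt (by linarith) h2
    linarith
  have hb1 : ∀ p ∈ I, b p < 1 := by
    intro p hp
    have h1 := hp0 p hp
    simp only [hb]
    have : 0 < 1 / (p : ℝ) ^ (e p + 1) := by positivity
    linarith
  have hb0 : ∀ p ∈ I, 0 < b p := fun p hp => (ha0 p hp).trans (hab p hp)
  -- σ(p^e)/p^e = b/a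
  have hs : ∀ p ∈ I, (sp p (e p) : ℝ) * a p = (p : ℝ) ^ (e p) * b p := by
    intro p hp
    have h1 := hp0 p hp
    have h2 := sp_mul p (e p) (by have := h3 p hp; omega)
    have h3' : ((sp p (e p) : ℝ)) * ((p : ℝ) - 1) + 1 = (p : ℝ) ^ (e p + 1) := by
      have : ((sp p (e p) * (p - 1) + 1 : ℕ) : ℝ) = ((p ^ (e p + 1) : ℕ) : ℝ) := by rw [h2]
      rw [Nat.cast_add, Nat.cast_mul, Nat.cast_sub (by have := h3 p hp; omega)] at this
      push_cast at this
      linarith
    simp only [ha, hb]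
    have hpne : (p : ℝ) ≠ 0 := by linarith
    field_simp
    rw [pow_succ] at h3' ⊢
    have hpp : (p : ℝ) ^ (e p) ≠ 0 := pow_ne_zero _ hpne
    field_simp
    linarith
  -- main identity over I
  have hmain : ∏ p ∈ I, b p = 2 * ∏ p ∈ I, a p := by
    have h1 : (∏ p ∈ I, (sp p (e p) : ℝ)) = 2 * ∏ p ∈ I, (p : ℝ) ^ (e p) := by
      exact_mod_cast hperf
    have h2 : (∏ p ∈ I, (sp p (e p) : ℝ)) * ∏ p ∈ I, a p = (∏ p ∈ I, (p : ℝ) ^ (e p)) * ∏ p ∈ I, b p := by
      rw [← Finset.prod_mul_distrib, ← Finset.prod_mul_distrib]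
      exact Finset.prod_congr rfl hs
    rw [h1] at h2
    have h3' : (∏ p ∈ I, (p : ℝ) ^ (e p)) ≠ 0 :=
      Finset.prod_ne_zero_iff.2 (fun p hp => pow_ne_zero _ (by have := hp0 p hp; linarith))
    apply mul_left_cancel₀ h3'
    rw [← h2]; ring
  have split : ∀ f : ℕ → ℝ, ∏ p ∈ I, f p = (∏ p ∈ A, f p) * (∏ p ∈ T, f p) * ∏ p ∈ U, f p := by
    intro f
    rw [← hATU, Finset.prod_union (by rw [Finset.disjoint_union_left]; exact ⟨hAU, hTU⟩),
      Finset.prod_union hAT]
  set nn : ℕ := 2 * (∏ p ∈ A, p ^ (e p)) * ∏ p ∈ T, (p - 1) with hnn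
  set mm : ℕ := (∏ p ∈ A, sp p (e p)) * ∏ p ∈ T, p with hmm
  have hmm0 : 0 < mm := by
    rw [hmm]
    exact Nat.mul_pos (Finset.prod_pos (fun p _ => sp_pos p _))
      (Finset.prod_pos (fun p hp => by have := h3 p (hTI p hp); omega))
  set W : ℝ := (∏ i ∈ A, (i : ℝ) ^ (e i + 1)) * ∏ i ∈ T, (i : ℝ) with hW
  have hmW : (mm : ℝ) ≤ W := by
    have h1 : mm ≤ (∏ p ∈ A, p ^ (e p + 1)) * ∏ p ∈ T, p := by
      rw [hmm]
      apply Nat.mul_le_mul_right
      exact Finset.prod_le_prod' (fun p hp => sp_le p _ (by have := h3 p (hAI p hp); omega))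
    rw [hW]
    calc (mm : ℝ) ≤ (((∏ p ∈ A, p ^ (e p + 1)) * ∏ p ∈ T, p : ℕ) : ℝ) := by exact_mod_cast h1
      _ = _ := by push_cast; rfl
  have hmm1 : (1 : ℝ) ≤ mm := by exact_mod_cast hmm0
  have hW1 : 1 ≤ W := hmm1.trans hmW
  -- nn * ∏_U a = mm * ∏_{T∪U} b
  have hstar : (nn : ℝ) * ∏ p ∈ U, a p = mm * ((∏ p ∈ T, b p) * ∏ p ∈ U, b p) := by
    have h1 : (nn : ℝ) = 2 * (∏ p ∈ A, (p : ℝ) ^ (e p)) * ((∏ p ∈ T, (p : ℝ)) * ∏ p ∈ T, a p) := by
      rw [hnn]
      push_cast
      rw [← Finset.prod_mul_distrib]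
      congr 1
      apply Finset.prod_congr rfl
      intro p hp
      have := hp0 p (hTI p hp)
      have h3p := h3 p (hTI p hp)
      rw [Nat.cast_sub (by omega)]
      simp only [ha]
      field_simp
      push_cast
      ring
    have h2 : (mm : ℝ) = (∏ p ∈ A, (sp p (e p) : ℝ)) * ∏ p ∈ T, (p : ℝ) := by
      rw [hmm]; push_cast; rfl
    have h3' : (∏ p ∈ A, (sp p (e p) : ℝ)) * ∏ p ∈ A, a p = (∏ p ∈ A, (p : ℝ) ^ (e p)) * ∏ p ∈ A, b p := by
      rw [← Finset.prod_mul_distrib, ← Finset.prod_mul_distrib]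
      exact Finset.prod_congr rfl (fun p hp => hs p (hAI p hp))
    have haA : (∏ p ∈ A, a p) ≠ 0 := Finset.prod_ne_zero_iff.2 (fun p hp => (ha0 p (hAI p hp)).ne')
    rw [split, split] at hmain
    rw [h1, h2]
    apply mul_left_cancel₀ haA
    calc (∏ p ∈ A, a p) * (2 * (∏ p ∈ A, (p : ℝ) ^ (e p)) * ((∏ p ∈ T, (p : ℝ)) * ∏ p ∈ T, a p) * ∏ p ∈ U, a p)
        = (∏ p ∈ A, (p : ℝ) ^ (e p)) * (∏ p ∈ T, (p : ℝ)) *
            (2 * ((∏ p ∈ A, a p) * (∏ p ∈ T, a p) * ∏ p ∈ U, a p)) := by ring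
      _ = (∏ p ∈ A, (p : ℝ) ^ (e p)) * (∏ p ∈ T, (p : ℝ)) *
            ((∏ p ∈ A, b p) * (∏ p ∈ T, b p) * ∏ p ∈ U, b p) := by rw [hmain]
      _ = ((∏ p ∈ A, (p : ℝ) ^ (e p)) * ∏ p ∈ A, b p) * (∏ p ∈ T, (p : ℝ)) *
            ((∏ p ∈ T, b p) * ∏ p ∈ U, b p) := by ring
      _ = _ := by rw [← h3']; ring
  have hUa1 : ∏ p ∈ U, a p ≤ 1 :=
    Finset.prod_le_one (fun p hp => (ha0 p (hUI p hp)).le) (fun p hp => ha1 p (hUI p hp))
  have hUa0 : 0 < ∏ p ∈ U, a p := Finset.prod_pos (fun p hp => ha0 p (hUI p hp))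
  have hbTU : (∏ p ∈ T, b p) * ∏ p ∈ U, b p = ∏ p ∈ T ∪ U, b p := (Finset.prod_union hTU).symm
  have hTUI : ∀ p ∈ T ∪ U, p ∈ I := fun p hp => by
    rw [Finset.mem_union] at hp
    exact hp.elim (hTI p) (hUI p)
  have hI0 : (0 : ℝ) < I.card := by
    obtain ⟨p, hp⟩ := hne
    exact_mod_cast Finset.card_pos.2 ⟨p, hTUI p hp⟩
  rw [hbTU] at hstar
  have hb_lt : ∏ p ∈ T ∪ U, b p < 1 := by
    obtain ⟨p, hp⟩ := hne
    rw [← Finset.mul_prod_erase _ _ hp]
    have h1 : ∏ x ∈ (T ∪ U).erase p, b x ≤ 1 :=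
      Finset.prod_le_one (fun x hx => (hb0 x (hTUI x (Finset.mem_of_mem_erase hx))).le)
        (fun x hx => (hb1 x (hTUI x (Finset.mem_of_mem_erase hx))).le)
    have h2 : 0 ≤ ∏ x ∈ (T ∪ U).erase p, b x :=
      Finset.prod_nonneg (fun x hx => (hb0 x (hTUI x (Finset.mem_of_mem_erase hx))).le)
    have h3' := hb1 p (hTUI p hp)
    have h4 := hb0 p (hTUI p hp)
    nlinarith
  rcases lt_trichotomy mm nn with hlt | heq | hgt
  · -- nn > mm : a new small prime
    left
    by_contra hcon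
    push Not at hcon
    have hsum : ∑ p ∈ U, 1 / (p : ℝ) ≤ 1 / (2 * W) := by
      have h1 : ∀ p ∈ U, 1 / (p : ℝ) ≤ 1 / (2 * I.card * W) := by
        intro p hp
        exact one_div_le_one_div_of_le (by positivity) (hcon p hp).le
      calc ∑ p ∈ U, 1 / (p : ℝ) ≤ ∑ p ∈ U, 1 / (2 * I.card * W) := Finset.sum_le_sum h1
        _ = U.card * (1 / (2 * I.card * W)) := by rw [Finset.sum_const, nsmul_eq_mul]
        _ ≤ I.card * (1 / (2 * I.card * W)) := by
            apply mul_le_mul_of_nonneg_right _ (by positivity)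
            exact_mod_cast Finset.card_le_card (fun p hp => hUI p hp)
        _ = 1 / (2 * W) := by field_simp
    have h2 := bern U (fun p => 1 / (p : ℝ)) (fun p _ => by positivity) (fun p hp => by
      have := hp0 p (hUI p hp)
      rw [div_le_one (by linarith)]; linarith)
    have h3' : 1 - 1 / (2 * W) ≤ ∏ p ∈ U, a p := by
      refine le_trans ?_ h2
      linarith
    have h4 : (mm : ℝ) + 1 ≤ nn := by exact_mod_cast hlt
    have h5 : 1 / (2 * W) ≤ 1 / ((mm : ℝ) + 1) :=
      one_div_le_one_div_of_le (by positivity) (by linarith)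
    have h6 : (mm : ℝ) < nn * ∏ p ∈ U, a p ∨ (mm : ℝ) ≤ nn * ∏ p ∈ U, a p := by
      right
      calc (mm : ℝ) = (mm + 1) * (1 - 1 / ((mm : ℝ) + 1)) := by field_simp; ring
        _ ≤ (mm + 1) * ∏ p ∈ U, a p := by
            apply mul_le_mul_of_nonneg_left _ (by positivity); linarith
        _ ≤ nn * ∏ p ∈ U, a p := mul_le_mul_of_nonneg_right h4 hUa0.le
    have h7 : (mm : ℝ) ≤ nn * ∏ p ∈ U, a p := by
      rcases h6 with h | h <;> linarith
    rw [hstar] at h7
    nlinarith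
  · -- nn = mm : impossible
    exfalso
    by_cases hT : T.Nonempty
    · set P := T.max' hT with hP
      have hPT : P ∈ T := T.max'_mem hT
      have hPp : P.Prime := hI P (hTI P hPT)
      have h1 : P ∣ nn := by
        rw [← heq, hmm]
        exact Dvd.dvd.mul_left (Finset.dvd_prod_of_mem _ hPT) _
      rw [hnn] at h1
      rcases (hPp.dvd_mul).1 h1 with h | h
      · rcases (hPp.dvd_mul).1 h with h | h
        · have := Nat.le_of_dvd (by norm_num) h
          have := h3 P (hTI P hPT)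
          omega
        · obtain ⟨x, hx, hd⟩ := (Prime.dvd_finsetProd_iff hPp.prime _).1 h
          have h5 := hPp.dvd_of_dvd_pow hd
          have h6 : P = x := (Nat.prime_dvd_prime_iff_eq hPp (hI x (hAI x hx))).1 h5
          rw [← h6] at hx
          exact (Finset.disjoint_left.1 hAT) hx hPT
      · obtain ⟨x, hx, hd⟩ := (Prime.dvd_finsetProd_iff hPp.prime _).1 h
        have h5 : x ≤ P := T.le_max' x hx
        have h6 := h3 x (hTI x hx)
        have := Nat.le_of_dvd (by omega) hd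
        omega
    · rw [Finset.not_nonempty_iff_eq_empty] at hT
      subst hT
      rw [Finset.empty_union] at hstar hne
      rw [← heq] at hstar
      have h1 : ∏ p ∈ U, a p = ∏ p ∈ U, b p := mul_left_cancel₀ (by positivity) hstar
      have h2 : ∏ p ∈ U, a p < ∏ p ∈ U, b p :=
        Finset.prod_lt_prod_of_nonempty (fun p hp => ha0 p (hUI p hp)) (fun p hp => hab p (hUI p hp)) hne
      linarith
  · -- nn < mm : a new small component
    right
    by_contra hcon
    push Not at hcon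
    have hsum : ∑ p ∈ T ∪ U, 1 / (p : ℝ) ^ (e p + 1) ≤ 1 / (2 * W) := by
      have h1 : ∀ p ∈ T ∪ U, 1 / (p : ℝ) ^ (e p + 1) ≤ 1 / (2 * I.card * W) := by
        intro p hp
        exact one_div_le_one_div_of_le (by positivity) (hcon p hp).le
      calc ∑ p ∈ T ∪ U, 1 / (p : ℝ) ^ (e p + 1) ≤ ∑ p ∈ T ∪ U, 1 / (2 * I.card * W) := Finset.sum_le_sum h1
        _ = (T ∪ U).card * (1 / (2 * I.card * W)) := by rw [Finset.sum_const, nsmul_eq_mul]
        _ ≤ I.card * (1 / (2 * I.card * W)) := by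
            apply mul_le_mul_of_nonneg_right _ (by positivity)
            exact_mod_cast Finset.card_le_card (fun p hp => hTUI p hp)
        _ = 1 / (2 * W) := by field_simp
    have h2 := bern (T ∪ U) (fun p => 1 / (p : ℝ) ^ (e p + 1)) (fun p _ => by positivity) (fun p hp => by
      have h5 := hp0 p (hTUI p hp)
      have h6 := hQ p (hTUI p hp)
      rw [div_le_one (by linarith)]; linarith)
    have h3' : 1 - 1 / (2 * W) ≤ ∏ p ∈ T ∪ U, b p := by
      refine le_trans ?_ h2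
      linarith
    have h4 : (nn : ℝ) + 1 ≤ mm := by exact_mod_cast hgt
    have h5 : (mm : ℝ) * ∏ p ∈ T ∪ U, b p ≤ mm - 1 := by
      rw [← hstar]
      have : (nn : ℝ) * ∏ p ∈ U, a p ≤ nn * 1 := mul_le_mul_of_nonneg_left hUa1 (Nat.cast_nonneg _)
      linarith
    have h6 : (mm : ℝ) * (1 / (2 * W)) ≤ 1 / 2 := by
      rw [mul_one_div, div_le_iff₀ (by positivity)]
      linarith
    have h7 : (mm : ℝ) * (1 - 1 / (2 * W)) ≤ mm * ∏ p ∈ T ∪ U, b p :=
      mul_le_mul_of_nonneg_left h3' (by positivity)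
    nlinarith

theorem logb_le_sub_one (r : ℝ) (hr : 2 ≤ r) : logb 2 r ≤ r - 1 := by
  have h1 : logb 2 r = 1 + logb 2 (r / 2) := by
    rw [Real.logb_div (by linarith) (by norm_num), Real.logb_self_eq_one (by norm_num)]; ring
  have h2 : Real.log (r / 2) ≤ r / 2 - 1 := Real.log_le_sub_one_of_pos (by linarith)
  have h3 : logb 2 (r / 2) ≤ r - 2 := by
    unfold Real.logb
    rw [div_le_iff₀ (Real.log_pos (by norm_num))]
    have := Real.log_two_gt_d9
    nlinarith
  linarith

theorem x0_sq (k : ℕ) (hk : 1 ≤ k) : (logb 2 (logb 2 (2 * k))) ^ 2 ≤ k ∧ 0 ≤ logb 2 (logb 2 (2 * (k : ℝ))) := by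
  have hk' : (1 : ℝ) ≤ k := by exact_mod_cast hk
  have hc1 : 1 ≤ logb 2 (2 * (k : ℝ)) := by
    rw [Real.le_logb_iff_rpow_le (by norm_num) (by linarith)]
    norm_num
    linarith
  have h0 : 0 ≤ logb 2 (logb 2 (2 * (k : ℝ))) := Real.logb_nonneg (by norm_num) hc1
  refine ⟨?_, h0⟩
  rcases Nat.lt_or_ge k 4 with h4 | h4
  · interval_cases k
    · norm_num
    · have : logb 2 (2 * ((2 : ℕ) : ℝ)) = 2 := by
        rw [Real.logb_eq_iff_rpow_eq (by norm_num) (by norm_num) (by norm_num)]; norm_num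
      rw [this, Real.logb_self_eq_one (by norm_num)]
      norm_num
    · have h1 : logb 2 (2 * ((3 : ℕ) : ℝ)) ≤ 3 := by
        rw [Real.logb_le_iff_le_rpow (by norm_num) (by norm_num)]
        norm_num
      have h2 : logb 2 (logb 2 (2 * ((3 : ℕ) : ℝ))) ≤ logb 2 3 :=
        Real.logb_le_logb_of_le (by norm_num) (by linarith) h1
      have h3 : logb 2 3 ≤ 8 / 5 := by
        rw [Real.logb_le_iff_le_rpow (by norm_num) (by norm_num)]
        have : (3 : ℝ) = ((3 : ℝ) ^ (5 : ℝ)) ^ ((1 : ℝ) / 5) := by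
          rw [← Real.rpow_mul (by norm_num)]; norm_num
        rw [this]
        have h5 : (2 : ℝ) ^ ((8 : ℝ) / 5) = ((2 : ℝ) ^ (8 : ℝ)) ^ ((1 : ℝ) / 5) := by
          rw [← Real.rpow_mul (by norm_num)]; norm_num
        rw [h5]
        apply Real.rpow_le_rpow (by positivity) _ (by norm_num)
        norm_num
      have h4 : logb 2 (logb 2 (2 * ((3 : ℕ) : ℝ))) ≤ 8 / 5 := h2.trans h3
      calc (logb 2 (logb 2 (2 * ((3 : ℕ) : ℝ)))) ^ 2 ≤ (8 / 5) ^ 2 := pow_le_pow_left₀ h0 h4 2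
        _ ≤ _ := by norm_num
  · set r := Real.sqrt k with hr
    have hk4 : (4 : ℝ) ≤ k := by exact_mod_cast h4
    have hr2 : 2 ≤ r := by
      rw [hr, show (2 : ℝ) = Real.sqrt 4 by rw [show (4 : ℝ) = 2 ^ 2 by norm_num, Real.sqrt_sq (by norm_num)]]
      exact Real.sqrt_le_sqrt hk4
    have hrk : r * r = k := Real.mul_self_sqrt (by linarith)
    have e1 : logb 2 (2 * (k : ℝ)) = 1 + 2 * logb 2 r := by
      rw [← hrk, Real.logb_mul (by norm_num) (by positivity), Real.logb_mul (by positivity) (by positivity),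
        Real.logb_self_eq_one (by norm_num)]
      ring
    have h1 := logb_le_sub_one r hr2
    have h2 : logb 2 (2 * (k : ℝ)) ≤ 2 * r := by rw [e1]; linarith
    have h3 : logb 2 (logb 2 (2 * (k : ℝ))) ≤ logb 2 (2 * r) :=
      Real.logb_le_logb_of_le (by norm_num) (by linarith) h2
    have h4 : logb 2 (2 * r) = 1 + logb 2 r := by
      rw [Real.logb_mul (by norm_num) (by positivity), Real.logb_self_eq_one (by norm_num)]
    have h5 : logb 2 (logb 2 (2 * (k : ℝ))) ≤ r := by linarith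
    calc (logb 2 (logb 2 (2 * (k : ℝ)))) ^ 2 ≤ r ^ 2 := pow_le_pow_left₀ h0 h5 2
      _ = k := by rw [pow_two]; exact hrk

theorem final_num (k : ℕ) (hk : 1 ≤ k) :
    (k : ℝ) * logb 2 (logb 2 (2 * k)) + (k : ℝ) * ((k : ℝ) - 1) / 2
      + psi k (logb 2 (logb 2 (2 * k))) + k ≤ (k : ℝ) ^ 2 + k := by
  obtain ⟨h1, h0⟩ := x0_sq k hk
  have hk' : (1 : ℝ) ≤ k := by exact_mod_cast hk
  set x := logb 2 (logb 2 (2 * (k : ℝ))) with hx
  have hxk : x ≤ k := by nlinarith
  have : psi k x = (k - x) ^ 2 / 2 := by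
    unfold psi
    rw [max_eq_right (by linarith)]
  rw [this]
  nlinarith

/-- the number of divisors of an odd perfect number -/
theorem card_divisors_le (N : ℕ) (hodd : Odd N) (hperf : ∑ d ∈ N.divisors, d = 2 * N) :
    N.divisors.card ≤ 2 ^ (N.primeFactors.card ^ 2 + N.primeFactors.card) := by
  have hN0 : N ≠ 0 := by
    rintro rfl
    exact absurd hodd (by decide)
  have hN1 : N ≠ 1 := by
    rintro rfl
    simp at hperf
  set I := N.primeFactors with hI
  set e : ℕ → ℕ := fun p => N.factorization p with he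
  have hIp : ∀ p ∈ I, p.Prime := fun p hp => Nat.prime_of_mem_primeFactors hp
  have h3 : ∀ p ∈ I, 3 ≤ p := by
    intro p hp
    have h1 := hIp p hp
    have h2 : p ≠ 2 := by
      rintro rfl
      have := Nat.dvd_of_mem_primeFactors hp
      exact (Nat.not_even_iff_odd.2 hodd) (even_iff_two_dvd.2 this)
    have := h1.two_le
    omega
  have he1 : ∀ p ∈ I, 1 ≤ e p := fun p hp =>
    (hIp p hp).factorization_pos_of_dvd hN0 (Nat.dvd_of_mem_primeFactors hp)
  have hprod : ∏ p ∈ I, sp p (e p) = 2 * ∏ p ∈ I, p ^ (e p) := by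
    have h1 : ∏ p ∈ I, p ^ (e p) = N := by
      conv_rhs => rw [← Nat.prod_factorization_pow_eq_self hN0]
      rfl
    rw [h1, ← hperf, Nat.sum_divisors hN0]
    rfl
  have hne : I.Nonempty := Nat.nonempty_primeFactors.2 (by omega)
  have hk : 1 ≤ I.card := Finset.card_pos.2 hne
  have hk' : (1 : ℝ) ≤ I.card := by exact_mod_cast hk
  set l : ℕ → ℝ := fun p => logb 2 (p : ℝ) with hl
  set q : ℕ → ℝ := fun p => logb 2 ((p : ℝ) ^ (e p + 1)) with hq
  have hp0 : ∀ p ∈ I, (3 : ℝ) ≤ p := fun p hp => by exact_mod_cast h3 p hp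
  have hqe : ∀ p, q p = (e p + 1) * l p := by
    intro p
    simp only [hq, hl]
    rw [Real.logb_pow]
    push_cast
    ring
  have hl1 : ∀ p ∈ I, 1 ≤ l p := by
    intro p hp
    have := hp0 p hp
    simp only [hl]
    rw [Real.le_logb_iff_rpow_le (by norm_num) (by linarith), Real.rpow_one]
    linarith
  have hlq : ∀ p ∈ I, l p ≤ q p := by
    intro p hp
    rw [hqe]
    have h1 := hl1 p hp
    have : (0 : ℝ) ≤ e p := Nat.cast_nonneg _
    nlinarith
  have hc : 1 ≤ logb 2 (2 * (I.card : ℝ)) := by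
    rw [Real.le_logb_iff_rpow_le (by norm_num) (by linarith), Real.rpow_one]
    linarith
  have hlogW : ∀ A T : Finset ℕ, (∀ p ∈ A, p ∈ I) → (∀ p ∈ T, p ∈ I) →
      logb 2 (2 * I.card * ((∏ i ∈ A, (i : ℝ) ^ (e i + 1)) * ∏ i ∈ T, (i : ℝ)))
        = logb 2 (2 * (I.card : ℝ)) + ∑ i ∈ A, q i + ∑ i ∈ T, l i := by
    intro A T hA hT
    have hA0 : ∀ i ∈ A, (i : ℝ) ^ (e i + 1) ≠ 0 := fun i hi =>
      pow_ne_zero _ (by have := hp0 i (hA i hi); linarith)
    have hT0 : ∀ i ∈ T, (i : ℝ) ≠ 0 := fun i hi => by have := hp0 i (hT i hi); linarith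
    rw [Real.logb_mul (by positivity) (mul_ne_zero (Finset.prod_ne_zero_iff.2 hA0) (Finset.prod_ne_zero_iff.2 hT0)),
      Real.logb_mul (Finset.prod_ne_zero_iff.2 hA0) (Finset.prod_ne_zero_iff.2 hT0),
      Real.logb_prod _ _ hA0, Real.logb_prod _ _ hT0]
    ring
  have hpot := potential I l q (logb 2 (2 * (I.card : ℝ))) hc hl1 hlq
    (by
      intro A T U h1 h2 h3' h4 h5
      have memI : ∀ p, p ∈ I ↔ p ∈ A ∨ p ∈ T ∨ p ∈ U := by
        intro p; rw [← h1]; simp
      have hA : ∀ p ∈ A, p ∈ I := fun p hp => (memI p).2 (Or.inl hp)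
      have hT : ∀ p ∈ T, p ∈ I := fun p hp => (memI p).2 (Or.inr (Or.inl hp))
      have hU : ∀ p ∈ U, p ∈ I := fun p hp => (memI p).2 (Or.inr (Or.inr hp))
      have hlw := hlogW A T hA hT
      rcases step I e hIp h3 he1 hprod A T U h1 h2 h3' h4 h5 with ⟨p, hp, hpl⟩ | ⟨p, hp, hpl⟩
      · left
        refine ⟨p, hp, ?_⟩
        rw [← hlw]
        exact Real.logb_le_logb_of_le (by norm_num) (by have := hp0 p (hU p hp); linarith) hpl
      · right
        refine ⟨p, hp, ?_⟩
        rw [← hlw]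
        have hpI : p ∈ I := by
          rw [Finset.mem_union] at hp
          exact hp.elim (hT p) (hU p)
        exact Real.logb_le_logb_of_le (by norm_num)
          (pow_pos (by have := hp0 p hpI; linarith) _) hpl)
    (2 * I.card) ∅ ∅ I (by simp) (by simp) (by simp) (by simp) (by simp)
  simp only [Finset.sum_empty, Finset.card_empty, Nat.cast_zero, zero_add, add_zero] at hpot
  have hfin := final_num I.card hk
  have hsum : ∑ p ∈ I, (logb 2 (q p) - logb 2 (l p)) = logb 2 (N.divisors.card : ℝ) := by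
    rw [Nat.card_divisors hN0]
    push_cast
    rw [Real.logb_prod _ _ (fun i _ => by positivity)]
    apply Finset.sum_congr rfl
    intro p hp
    have h1 := hl1 p hp
    rw [hqe, Real.logb_mul (by positivity) (by linarith)]
    simp only [he]
    ring
  rw [hsum] at hpot
  have h5 : logb 2 (N.divisors.card : ℝ) ≤ ((I.card ^ 2 + I.card : ℕ) : ℝ) := by
    push_cast
    linarith
  have hd0 : (0 : ℝ) < N.divisors.card := by
    exact_mod_cast Finset.card_pos.2 (Nat.nonempty_divisors.2 hN0)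
  rw [Real.logb_le_iff_le_rpow (by norm_num) hd0, Real.rpow_natCast] at h5
  exact_mod_cast h5

/-- odd perfect numbers `N = A * M` with `A` a unitary divisor containing ... -/
def Cl (k : ℕ) (S : Finset ℕ) (A j B : ℕ) : Set ℕ :=
  {N | Odd N ∧ ∑ d ∈ N.divisors, d = 2 * N ∧ (∀ p ∈ N.primeFactors, p ≤ 2 * k → p ∈ S) ∧
    (∀ p ∈ S, p ∈ N.primeFactors) ∧
    ∃ M, N = A * M ∧ A.Coprime M ∧ M.primeFactors.card = j ∧ M.divisors.card ≤ B}

theorem sg_lt (k M : ℕ) (hM : M ≠ 0) (hk : 1 ≤ k) (hc : M.primeFactors.card ≤ k)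
    (hp : ∀ p ∈ M.primeFactors, 2 * k < p) : ∑ d ∈ M.divisors, d < 2 * M := by
  have h1 : ∑ d ∈ M.divisors, d = ∏ p ∈ M.primeFactors, sp p (M.factorization p) :=
    Nat.sum_divisors hM
  have h2 : ∏ p ∈ M.primeFactors, p ^ (M.factorization p) = M :=
    Nat.prod_factorization_pow_eq_self hM
  have hpp : ∀ p ∈ M.primeFactors, (2 * (k : ℝ) + 1) ≤ p := fun p h => by
    have := hp p h
    exact_mod_cast this
  have hk' : (1 : ℝ) ≤ k := by exact_mod_cast hk
  have h3 : ∀ p ∈ M.primeFactors, (sp p (M.factorization p) : ℝ) * (1 - 1 / (p : ℝ)) ≤ (p : ℝ) ^ (M.factorization p) := by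
    intro p h
    have hp1 := hpp p h
    have hpn : 3 ≤ p := by have := hp p h; omega
    have h4 := sp_mul p (M.factorization p) (by omega)
    have h5 : ((sp p (M.factorization p) : ℝ)) * ((p : ℝ) - 1) + 1 = (p : ℝ) ^ (M.factorization p + 1) := by
      have : ((sp p (M.factorization p) * (p - 1) + 1 : ℕ) : ℝ) = ((p ^ (M.factorization p + 1) : ℕ) : ℝ) := by rw [h4]
      rw [Nat.cast_add, Nat.cast_mul, Nat.cast_sub (by omega)] at this
      push_cast at this
      linarith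
    have hp0 : (0 : ℝ) < p := by linarith
    have e1 : (sp p (M.factorization p) : ℝ) * (1 - 1 / (p : ℝ)) = (sp p (M.factorization p) : ℝ) * ((p : ℝ) - 1) / p := by
      field_simp
    rw [e1, div_le_iff₀ hp0, ← pow_succ]
    linarith
  have h4 : (∏ p ∈ M.primeFactors, (sp p (M.factorization p) : ℝ)) * ∏ p ∈ M.primeFactors, (1 - 1 / (p : ℝ)) ≤ M := by
    rw [← Finset.prod_mul_distrib]
    calc _ ≤ ∏ p ∈ M.primeFactors, (p : ℝ) ^ (M.factorization p) := by
          apply Finset.prod_le_prod _ h3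
          intro p h
          have hp1 := hpp p h
          have : 1 / (p : ℝ) ≤ 1 := by rw [div_le_one (by linarith)]; linarith
          exact mul_nonneg (Nat.cast_nonneg _) (by linarith)
      _ = M := by exact_mod_cast h2
  have h5 := bern M.primeFactors (fun p => 1 / (p : ℝ)) (fun p _ => by positivity) (fun p h => by
    have := hpp p h
    rw [div_le_one (by linarith)]; linarith)
  have h6 : ∑ p ∈ M.primeFactors, 1 / (p : ℝ) ≤ k * (1 / (2 * (k : ℝ) + 1)) := by
    calc ∑ p ∈ M.primeFactors, 1 / (p : ℝ) ≤ ∑ p ∈ M.primeFactors, 1 / (2 * (k : ℝ) + 1) :=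
          Finset.sum_le_sum (fun p h => one_div_le_one_div_of_le (by positivity) (hpp p h))
      _ = M.primeFactors.card * (1 / (2 * (k : ℝ) + 1)) := by rw [Finset.sum_const, nsmul_eq_mul]
      _ ≤ _ := by
          apply mul_le_mul_of_nonneg_right _ (by positivity)
          exact_mod_cast hc
  have h7 : k * (1 / (2 * (k : ℝ) + 1)) < 1 / 2 := by
    rw [mul_one_div, div_lt_div_iff₀ (by positivity) (by norm_num)]
    linarith
  have h8 : (1 / 2 : ℝ) < ∏ p ∈ M.primeFactors, (1 - 1 / (p : ℝ)) := by linarith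
  have hs0 : (0 : ℝ) < ∏ p ∈ M.primeFactors, (sp p (M.factorization p) : ℝ) :=
    Finset.prod_pos (fun p _ => by exact_mod_cast sp_pos p _)
  have h9 : (∏ p ∈ M.primeFactors, (sp p (M.factorization p) : ℝ)) < 2 * M := by nlinarith
  rw [h1]
  exact_mod_cast h9

theorem next_prime (k : ℕ) (hk : 1 ≤ k) (S : Finset ℕ) (A j B : ℕ) (hj : j + 1 ≤ k)
    (hne : (Cl k S A (j + 1) B).Nonempty) :
    ∃ p, p.Prime ∧ ∀ N ∈ Cl k S A (j + 1) B, ∀ M, N = A * M → A.Coprime M → p ∣ M := by
  classical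
  by_cases hS : ∃ p ∈ S, ¬ p ∣ A
  · obtain ⟨p, hpS, hpA⟩ := hS
    obtain ⟨N0, hN0⟩ := hne
    have hpp : p.Prime := Nat.prime_of_mem_primeFactors (hN0.2.2.2.1 p hpS)
    refine ⟨p, hpp, ?_⟩
    intro N hN M hNM _
    have h1 := Nat.dvd_of_mem_primeFactors (hN.2.2.2.1 p hpS)
    rw [hNM] at h1
    exact ((hpp.dvd_mul).1 h1).resolve_left hpA
  · push Not at hS
    have hA : ¬ ((∑ d ∈ A.divisors, d) ∣ 2 * A) := by
      rintro ⟨c, hc⟩
      obtain ⟨N0, hodd, hperf, hsm, _, M, hNM, hcop, hcard, _⟩ := hne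
      have hN0 : N0 ≠ 0 := by rintro rfl; exact absurd hodd (by decide)
      have hA0 : A ≠ 0 := by rintro rfl; simp at hNM; exact hN0 hNM
      have hM0 : M ≠ 0 := by rintro rfl; simp at hNM; exact hN0 hNM
      have hM1 : M ≠ 1 := by rintro rfl; simp at hcard
      have hMp : ∀ p ∈ M.primeFactors, 2 * k < p := by
        intro p hp
        by_contra hcon
        have hpp := Nat.prime_of_mem_primeFactors hp
        have hpM := Nat.dvd_of_mem_primeFactors hp
        have h1 : p ∈ N0.primeFactors := by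
          rw [Nat.mem_primeFactors]
          exact ⟨hpp, hNM ▸ Dvd.dvd.mul_left hpM A, hN0⟩
        have h2 := hS p (hsm p h1 (by omega))
        have h3 := Nat.dvd_gcd h2 hpM
        rw [hcop] at h3
        exact hpp.one_lt.ne' (Nat.dvd_one.1 h3)
      have hlt := sg_lt k M hM0 hk (by omega) hMp
      have hsig : (∑ d ∈ A.divisors, d) * (∑ d ∈ M.divisors, d) = 2 * (A * M) := by
        rw [← hNM, ← hperf, hNM]
        exact (Nat.Coprime.sum_divisors_mul hcop).symm
      have hsA : 0 < ∑ d ∈ A.divisors, d :=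
        Finset.sum_pos (fun d hd => Nat.pos_of_mem_divisors hd) (Nat.nonempty_divisors.2 hA0)
      have h1 : ∑ d ∈ M.divisors, d = c * M := by
        apply Nat.eq_of_mul_eq_mul_left hsA
        rw [hsig, ← mul_assoc, hc]; ring
      have h2 : M < ∑ d ∈ M.divisors, d := by
        have h3 : ∑ d ∈ ({1, M} : Finset ℕ), d ≤ ∑ d ∈ M.divisors, d := by
          apply Finset.sum_le_sum_of_subset
          intro d hd
          simp only [Finset.mem_insert, Finset.mem_singleton] at hd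
          rcases hd with rfl | rfl
          · simp [hM0]
          · simp [hM0]
        rw [Finset.sum_pair (Ne.symm hM1)] at h3
        omega
      rw [h1] at h2 hlt
      have hM0' : 0 < M := Nat.pos_of_ne_zero hM0
      have : c < 2 := lt_of_mul_lt_mul_right hlt (Nat.zero_le _)
      interval_cases c
      · omega
      · omega
    obtain ⟨N0, hN0⟩ := hne
    have hA0 : A ≠ 0 := by
      obtain ⟨hodd, _, _, _, M, hNM, _⟩ := hN0
      rintro rfl
      simp at hNM
      rw [hNM] at hodd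
      exact absurd hodd (by decide)
    have hsA : (∑ d ∈ A.divisors, d) ≠ 0 :=
      (Finset.sum_pos (fun d hd => Nat.pos_of_mem_divisors hd) (Nat.nonempty_divisors.2 hA0)).ne'
    rw [← Nat.factorization_prime_le_iff_dvd hsA (by omega)] at hA
    push Not at hA
    obtain ⟨p, hpp, hlt⟩ := hA
    refine ⟨p, hpp, ?_⟩
    intro N hN M hNM hcop
    obtain ⟨hodd, hperf, _⟩ := hN
    have hNne : N ≠ 0 := by rintro rfl; exact absurd hodd (by decide)
    have hM0 : M ≠ 0 := by rintro rfl; simp at hNM; exact hNne hNM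
    have hsM : (∑ d ∈ M.divisors, d) ≠ 0 :=
      (Finset.sum_pos (fun d hd => Nat.pos_of_mem_divisors hd) (Nat.nonempty_divisors.2 hM0)).ne'
    have hsig : (∑ d ∈ A.divisors, d) * (∑ d ∈ M.divisors, d) = (2 * A) * M := by
      rw [mul_assoc, ← hNM, ← hperf, hNM]
      exact (Nat.Coprime.sum_divisors_mul hcop).symm
    have h1 := congrArg (fun n => n.factorization p) hsig
    rw [Nat.factorization_mul hsA hsM, Nat.factorization_mul (by omega) hM0] at h1
    simp only [Finsupp.add_apply] at h1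
    by_contra hcon
    rw [Nat.factorization_eq_zero_of_not_dvd hcon] at h1
    omega

theorem cl_subset (k : ℕ) (S : Finset ℕ) (A j B p : ℕ) (hp : p.Prime)
    (h : ∀ N ∈ Cl k S A (j + 1) B, ∀ M, N = A * M → A.Coprime M → p ∣ M) :
    Cl k S A (j + 1) B ⊆ ⋃ m ∈ Finset.Icc 2 B, Cl k S (A * p ^ (m - 1)) j (B / m) := by
  intro N hN
  have hN' := hN
  obtain ⟨hodd, hperf, hsm, hS, M, hNM, hcop, hcard, hdiv⟩ := hN
  have hpM := h N hN' M hNM hcop
  have hNne : N ≠ 0 := by rintro rfl; exact absurd hodd (by decide)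
  have hM0 : M ≠ 0 := by rintro rfl; simp at hNM; exact hNne hNM
  obtain ⟨e, M', hnd, hM⟩ := Nat.exists_eq_pow_mul_and_not_dvd hM0 p hp.ne_one
  have he : 1 ≤ e := by
    by_contra hcon
    have : e = 0 := by omega
    subst this
    rw [pow_zero, one_mul] at hM
    rw [hM] at hpM
    exact hnd hpM
  have hM'0 : M' ≠ 0 := by rintro rfl; simp at hM; exact hM0 hM
  have hcp : (p ^ e).Coprime M' := Nat.Coprime.pow_left e ((Nat.Prime.coprime_iff_not_dvd hp).2 hnd)
  have hd : M.divisors.card = (e + 1) * M'.divisors.card := by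
    rw [hM, Nat.Coprime.card_divisors_mul hcp, Nat.divisors_prime_pow hp, Finset.card_map, Finset.card_range]
  have hd1 : 1 ≤ M'.divisors.card := Finset.card_pos.2 (Nat.nonempty_divisors.2 hM'0)
  have heB : (e + 1) * M'.divisors.card ≤ B := hd ▸ hdiv
  rw [Set.mem_iUnion₂]
  refine ⟨e + 1, ?_, ?_⟩
  · rw [Finset.mem_Icc]
    constructor
    · omega
    · nlinarith
  · refine ⟨hodd, hperf, hsm, hS, M', ?_, ?_, ?_, ?_⟩
    · rw [hNM, hM, Nat.add_sub_cancel, mul_assoc]
    · rw [Nat.add_sub_cancel]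
      apply Nat.Coprime.mul_left _ hcp
      rw [hM] at hcop
      exact Nat.Coprime.coprime_mul_left_right hcop
    · have h1 : M.primeFactors = insert p M'.primeFactors := by
        rw [hM, Nat.primeFactors_mul (pow_ne_zero _ hp.ne_zero) hM'0,
          Nat.primeFactors_prime_pow (by omega) hp]
        rfl
      rw [h1, Finset.card_insert_of_notMem (by
        intro hmem
        exact hnd (Nat.dvd_of_mem_primeFactors hmem))] at hcard
      omega
    · rw [Nat.le_div_iff_mul_le (by omega)]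
      linarith [mul_comm (e + 1) M'.divisors.card]

/-- number of `j`-tuples of integers `≥ 2` with product at most `B` -/
def G : ℕ → ℕ → ℕ
  | 0, _ => 1
  | (j + 1), B => ∑ m ∈ Finset.Icc 2 B, G j (B / m)

theorem card_le (k : ℕ) (hk : 1 ≤ k) (S : Finset ℕ) :
    ∀ (j : ℕ), j ≤ k → ∀ (A B : ℕ), (Cl k S A j B).encard ≤ (G j B : ℕ) := by
  intro j
  induction j with
  | zero =>
    intro _ A B
    have : Cl k S A 0 B ⊆ {A} := by
      rintro N ⟨hodd, _, _, _, M, hNM, _, hcard, _⟩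
      have hNne : N ≠ 0 := by rintro rfl; exact absurd hodd (by decide)
      have hM0 : M ≠ 0 := by rintro rfl; simp at hNM; exact hNne hNM
      rw [Finset.card_eq_zero, Nat.primeFactors_eq_empty] at hcard
      rcases hcard with h | h
      · exact absurd h hM0
      · rw [h, mul_one] at hNM
        exact hNM
    calc (Cl k S A 0 B).encard ≤ ({A} : Set ℕ).encard := Set.encard_le_encard this
      _ = 1 := Set.encard_singleton A
      _ = _ := by simp [G]
  | succ j ih =>
    intro hj A B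
    by_cases hne : (Cl k S A (j + 1) B).Nonempty
    · obtain ⟨p, hp, h⟩ := next_prime k hk S A j B hj hne
      calc (Cl k S A (j + 1) B).encard
          ≤ (⋃ m ∈ Finset.Icc 2 B, Cl k S (A * p ^ (m - 1)) j (B / m)).encard :=
            Set.encard_le_encard (cl_subset k S A j B p hp h)
        _ ≤ ∑ m ∈ Finset.Icc 2 B, (Cl k S (A * p ^ (m - 1)) j (B / m)).encard :=
            Finset.set_encard_biUnion_le _ _
        _ ≤ ∑ m ∈ Finset.Icc 2 B, ((G j (B / m) : ℕ) : ℕ∞) :=
            Finset.sum_le_sum (fun m _ => ih (by omega) _ _)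
        _ = _ := by simp [G]
    · rw [Set.not_nonempty_iff_eq_empty] at hne
      rw [hne]; simp

/-- `∑_{m=2}^n m^{-(1+η)} ≤ (1 - n^{-η})/η` -/
theorem zeta_sum (η : ℝ) (hη : 0 < η) (n : ℕ) (hn : 1 ≤ n) :
    ∑ m ∈ Finset.Icc 2 n, (m : ℝ) ^ (-(1 + η)) ≤ (1 - (n : ℝ) ^ (-η)) / η := by
  induction n, hn using Nat.le_induction with
  | base => simp
  | succ n hn ih =>
    rw [← Finset.insert_Icc_right_eq_Icc_add_one (by omega) , Finset.sum_insert (by simp)]
    have hn' : (1 : ℝ) ≤ n := by exact_mod_cast hn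
    set N : ℝ := (n : ℝ) + 1 with hN
    have hN0 : 0 < N := by linarith
    have hcast : ((n + 1 : ℕ) : ℝ) = N := by push_cast; rfl
    rw [hcast]
    have h1 : N ^ (-(1 + η)) ≤ ((n : ℝ) ^ (-η) - N ^ (-η)) / η := by
      rw [le_div_iff₀ hη]
      have e1 : (n : ℝ) = N * (1 - 1 / N) := by rw [hN]; field_simp; ring
      have h2 : 0 < 1 - 1 / N := by
        have : 1 / N < 1 := by rw [div_lt_one hN0]; linarith
        linarith
      have e2 : (n : ℝ) ^ (-η) = N ^ (-η) * (1 - 1 / N) ^ (-η) := by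
        rw [e1, Real.mul_rpow hN0.le h2.le]
      have e3 : N ^ (-(1 + η)) = N ^ (-η) * (1 / N) := by
        rw [show -(1 + η) = -η + -1 by ring, Real.rpow_add hN0, Real.rpow_neg_one, one_div]
      have h3 : 1 + η / N ≤ (1 - 1 / N) ^ (-η) := by
        rw [Real.rpow_def_of_pos h2]
        have h4 : Real.log (1 - 1 / N) ≤ -(1 / N) := by
          have := Real.log_le_sub_one_of_pos h2
          linarith
        have h5 : η / N ≤ Real.log (1 - 1 / N) * -η := by
          have : (-(Real.log (1 - 1 / N))) * η ≥ (1 / N) * η :=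
            mul_le_mul_of_nonneg_right (by linarith) hη.le
          calc η / N = (1 / N) * η := by ring
            _ ≤ _ := by linarith
        have h6 := Real.add_one_le_exp (Real.log (1 - 1 / N) * -η)
        linarith
      rw [e2, e3]
      have h7 : 0 < N ^ (-η) := Real.rpow_pos_of_pos hN0 _
      have h8 : N ^ (-η) * (1 + η / N) ≤ N ^ (-η) * (1 - 1 / N) ^ (-η) :=
        mul_le_mul_of_nonneg_left h3 h7.le
      calc N ^ (-η) * (1 / N) * η = N ^ (-η) * (1 + η / N) - N ^ (-η) := by ring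
        _ ≤ _ := by linarith
    calc N ^ (-(1 + η)) + ∑ m ∈ Finset.Icc 2 n, (m : ℝ) ^ (-(1 + η))
        ≤ ((n : ℝ) ^ (-η) - N ^ (-η)) / η + (1 - (n : ℝ) ^ (-η)) / η := add_le_add h1 ih
      _ = (1 - N ^ (-η)) / η := by ring

theorem G_le (k : ℕ) (hk : 1 ≤ k) : ∀ (j B : ℕ), 1 ≤ B →
    (G j B : ℝ) ≤ (B : ℝ) ^ (1 + 1 / (k : ℝ)) * (k : ℝ) ^ j := by
  have hk' : (1 : ℝ) ≤ k := by exact_mod_cast hk
  intro j
  induction j with
  | zero =>
    intro B hB
    have : (1 : ℝ) ≤ (B : ℝ) ^ (1 + 1 / (k : ℝ)) :=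
      Real.one_le_rpow (by exact_mod_cast hB) (by positivity)
    simpa [G] using this
  | succ j ih =>
    intro B hB
    have hB' : (1 : ℝ) ≤ B := by exact_mod_cast hB
    simp only [G]
    push_cast
    have h1 : ∀ m ∈ Finset.Icc 2 B, (G j (B / m) : ℝ) ≤
        (B : ℝ) ^ (1 + 1 / (k : ℝ)) * (k : ℝ) ^ j * (m : ℝ) ^ (-(1 + 1 / (k : ℝ))) := by
      intro m hm
      rw [Finset.mem_Icc] at hm
      have hm0 : (0 : ℝ) < m := by exact_mod_cast (by omega : 0 < m)
      have h2 := ih (B / m) (Nat.div_pos hm.2 (by omega))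
      have h3 : ((B / m : ℕ) : ℝ) ^ (1 + 1 / (k : ℝ)) ≤ ((B : ℝ) / m) ^ (1 + 1 / (k : ℝ)) :=
        Real.rpow_le_rpow (Nat.cast_nonneg _) Nat.cast_div_le (by positivity)
      have h4 : ((B : ℝ) / m) ^ (1 + 1 / (k : ℝ)) = (B : ℝ) ^ (1 + 1 / (k : ℝ)) * (m : ℝ) ^ (-(1 + 1 / (k : ℝ))) := by
        rw [Real.div_rpow (by linarith) hm0.le, Real.rpow_neg hm0.le]
        rfl
      calc (G j (B / m) : ℝ) ≤ ((B / m : ℕ) : ℝ) ^ (1 + 1 / (k : ℝ)) * (k : ℝ) ^ j := h2
        _ ≤ ((B : ℝ) / m) ^ (1 + 1 / (k : ℝ)) * (k : ℝ) ^ j :=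
            mul_le_mul_of_nonneg_right h3 (by positivity)
        _ = _ := by rw [h4]; ring
    calc ∑ m ∈ Finset.Icc 2 B, (G j (B / m) : ℝ)
        ≤ ∑ m ∈ Finset.Icc 2 B, (B : ℝ) ^ (1 + 1 / (k : ℝ)) * (k : ℝ) ^ j * (m : ℝ) ^ (-(1 + 1 / (k : ℝ))) :=
          Finset.sum_le_sum h1
      _ = (B : ℝ) ^ (1 + 1 / (k : ℝ)) * (k : ℝ) ^ j * ∑ m ∈ Finset.Icc 2 B, (m : ℝ) ^ (-(1 + 1 / (k : ℝ))) := by
          rw [Finset.mul_sum]
      _ ≤ (B : ℝ) ^ (1 + 1 / (k : ℝ)) * (k : ℝ) ^ j * k := by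
          apply mul_le_mul_of_nonneg_left _ (by positivity)
          have h5 := zeta_sum (1 / (k : ℝ)) (by positivity) B hB
          have h6 : 0 < (B : ℝ) ^ (-(1 / (k : ℝ))) := Real.rpow_pos_of_pos (by linarith) _
          refine h5.trans ?_
          rw [div_le_iff₀ (by positivity)]
          have : (k : ℝ) * (1 / (k : ℝ)) = 1 := by field_simp
          rw [this]
          linarith
      _ = _ := by ring

/-- odd perfect numbers with exactly `k` prime factors -/
def OP (k : ℕ) : Set ℕ := {N | Odd N ∧ ∑ d ∈ N.divisors, d = 2 * N ∧ N.primeFactors.card = k}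

theorem op_encard (k : ℕ) (hk : 1 ≤ k) : (OP k).encard ≤ ((2 ^ (k - 1) * G k (2 ^ (k ^ 2 + k)) : ℕ) : ℕ∞) := by
  classical
  set O : Finset ℕ := (Finset.range (k - 1)).image (fun i => 2 * i + 3) with hO
  have hOc : O.card ≤ k - 1 := by
    rw [hO]
    exact Finset.card_image_le.trans (by simp)
  have hsub : OP k ⊆ ⋃ S ∈ O.powerset, Cl k S 1 k (2 ^ (k ^ 2 + k)) := by
    rintro N ⟨hodd, hperf, hcard⟩
    have hNne : N ≠ 0 := by rintro rfl; exact absurd hodd (by decide)
    rw [Set.mem_iUnion₂]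
    refine ⟨N.primeFactors.filter (fun p => p ≤ 2 * k), ?_, hodd, hperf, ?_, ?_, N, by simp, by simp, hcard, ?_⟩
    · rw [Finset.mem_powerset]
      intro p hp
      rw [Finset.mem_filter] at hp
      have hpp := Nat.prime_of_mem_primeFactors hp.1
      have hpd := Nat.dvd_of_mem_primeFactors hp.1
      have hpo : Odd p := Odd.of_dvd_nat hodd hpd
      obtain ⟨r, hr⟩ := hpo
      rw [hO, Finset.mem_image]
      have := hpp.two_le
      refine ⟨r - 1, ?_, ?_⟩
      · rw [Finset.mem_range]; omega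
      · omega
    · intro p hp hle
      rw [Finset.mem_filter]; exact ⟨hp, hle⟩
    · intro p hp
      exact (Finset.mem_filter.1 hp).1
    · have := card_divisors_le N hodd hperf
      rw [hcard] at this
      exact this
  calc (OP k).encard ≤ (⋃ S ∈ O.powerset, Cl k S 1 k (2 ^ (k ^ 2 + k))).encard := Set.encard_le_encard hsub
    _ ≤ ∑ S ∈ O.powerset, (Cl k S 1 k (2 ^ (k ^ 2 + k))).encard := Finset.set_encard_biUnion_le _ _
    _ ≤ ∑ S ∈ O.powerset, ((G k (2 ^ (k ^ 2 + k)) : ℕ) : ℕ∞) :=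
        Finset.sum_le_sum (fun S _ => card_le k hk S k le_rfl 1 _)
    _ = ((O.powerset.card * G k (2 ^ (k ^ 2 + k)) : ℕ) : ℕ∞) := by
        rw [Finset.sum_const, nsmul_eq_mul]; push_cast; rfl
    _ ≤ _ := by
        rw [Finset.card_powerset]
        exact_mod_cast Nat.mul_le_mul_right _ (Nat.pow_le_pow_right (by norm_num) hOc)

theorem num_bound (k : ℕ) (hk : 1 ≤ k) : 2 ^ (k - 1) * G k (2 ^ (k ^ 2 + k)) ≤ (k * 2 ^ (k + 3)) ^ k := by
  have hk' : (1 : ℝ) ≤ k := by exact_mod_cast hk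
  have h1 := G_le k hk k (2 ^ (k ^ 2 + k)) Nat.one_le_two_pow
  have h2 : (((2 ^ (k ^ 2 + k) : ℕ) : ℝ)) ^ (1 + 1 / (k : ℝ)) = (2 : ℝ) ^ ((k + 1) ^ 2) := by
    push_cast
    rw [← Real.rpow_natCast 2 (k ^ 2 + k), ← Real.rpow_mul (by norm_num), ← Real.rpow_natCast 2 ((k + 1) ^ 2)]
    congr 1
    push_cast
    field_simp
  rw [h2] at h1
  have h3 : ((2 ^ (k - 1) * G k (2 ^ (k ^ 2 + k)) : ℕ) : ℝ) ≤ (((k * 2 ^ (k + 3)) ^ k : ℕ) : ℝ) := by
    push_cast
    calc (2 : ℝ) ^ (k - 1) * (G k (2 ^ (k ^ 2 + k)) : ℝ)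
        ≤ (2 : ℝ) ^ (k - 1) * ((2 : ℝ) ^ ((k + 1) ^ 2) * (k : ℝ) ^ k) :=
          mul_le_mul_of_nonneg_left h1 (by positivity)
      _ = ((2 : ℝ) ^ ((k - 1) + (k + 1) ^ 2)) * (k : ℝ) ^ k := by rw [pow_add]; ring
      _ = ((2 : ℝ) ^ ((k + 3) * k)) * (k : ℝ) ^ k := by
          congr 2
          obtain ⟨r, rfl⟩ : ∃ r, k = r + 1 := ⟨k - 1, by omega⟩
          simp only [Nat.add_sub_cancel]
          ring
      _ = _ := by rw [mul_pow, ← pow_mul]; ring
  exact_mod_cast h3

theorem final (k : ℕ) : (OP k).Finite ∧ (OP k).ncard ≤ (k * 2 ^ (k + 3)) ^ k := by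
  rcases Nat.eq_zero_or_pos k with rfl | hk
  · have : OP 0 = ∅ := by
      ext N
      simp only [OP, Set.mem_ofPred_eq, Set.mem_empty_iff_false, iff_false]
      rintro ⟨hodd, hperf, hcard⟩
      rw [Finset.card_eq_zero, Nat.primeFactors_eq_empty] at hcard
      rcases hcard with rfl | rfl
      · exact absurd hodd (by decide)
      · simp at hperf
    rw [this]
    simp
  · have h1 := (op_encard k hk).trans (by exact_mod_cast num_bound k hk :
      ((2 ^ (k - 1) * G k (2 ^ (k ^ 2 + k)) : ℕ) : ℕ∞) ≤ (((k * 2 ^ (k + 3)) ^ k : ℕ) : ℕ∞))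
    have hfin : (OP k).Finite := Set.finite_of_encard_le_coe h1
    refine ⟨hfin, ?_⟩
    rw [← hfin.cast_ncard_eq] at h1
    exact_mod_cast h1


/-- **Main theorem.** Every odd perfect number with `k` distinct prime factors has at most
`2 ^ (k ^ 2 + k)` divisors, and there are at most `(k * 2 ^ (k + 3)) ^ k` such numbers. -/
theorem result :
    (∀ N : ℕ, Odd N → N.Perfect →
      N.divisors.card ≤ 2 ^ (N.primeFactors.card ^ 2 + N.primeFactors.card)) ∧
    (∀ k : ℕ, {N : ℕ | Odd N ∧ N.Perfect ∧ N.primeFactors.card = k}.Finite ∧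
      {N : ℕ | Odd N ∧ N.Perfect ∧ N.primeFactors.card = k}.ncard ≤ (k * 2 ^ (k + 3)) ^ k) := by
  constructor
  · intro N hodd hperf
    exact card_divisors_le N hodd ((Nat.perfect_iff_sum_divisors_eq_two_mul hperf.2).1 hperf)
  · intro k
    have h : {N : ℕ | Odd N ∧ N.Perfect ∧ N.primeFactors.card = k} = OP k := by
      ext N
      constructor
      · rintro ⟨h1, h2, h3⟩
        exact ⟨h1, (Nat.perfect_iff_sum_divisors_eq_two_mul h2.2).1 h2, h3⟩
      · rintro ⟨h1, h2, h3⟩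
        have h0 : 0 < N := by
          rcases Nat.eq_zero_or_pos N with h | h
          · subst h; exact absurd h1 (by decide)
          · exact h
        exact ⟨h1, (Nat.perfect_iff_sum_divisors_eq_two_mul h0).2 h2, h3⟩
    rw [h]
    exact final k

end Pool.Agent.Results.MP_f02ea4_nt.FewWithKPrimes
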