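import Mathlib
import Pool.Agent.H325R2.Opn
set_option autoImplicit false
namespace Pool.Agent.Results.MP_f02ea4_nt.IthLargestPrime
open Finset Pool.Agent.H325R2.Opn

/-- the reduced fraction `H / G` of the abundancy of the part `G`, and the cofactor `t` -/
theorem reduce {G M : ℕ} (hG : 1 < G) (hM : 1 < M) (hcop : G.Coprime M)
    (hperf : sg (G * M) = 2 * (G * M)) :
    ∃ G' H' t : ℕ, 1 < G' ∧ G' < H' ∧ H' * G = G' * sg G ∧ G' ∣ G ∧ sg M = G' * t ∧
      2 * M = H' * t ∧ 0 < t := by
  have hGH : G < sg G := sg_gt hG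
  have hMs : M < sg M := sg_gt hM
  have heq : sg G * sg M = 2 * (G * M) := by rw [← sg_mul hcop]; exact hperf
  set H := sg G with hH
  have hlt : H < 2 * G := by
    by_contra hcon
    push Not at hcon
    have h1 : 2 * G * sg M ≤ H * sg M := Nat.mul_le_mul_right _ hcon
    have h2 : 2 * G * M < 2 * G * sg M := Nat.mul_lt_mul_of_pos_left hMs (by omega)
    have h3 : 2 * G * M = 2 * (G * M) := by ring
    omega
  have hgpos : 0 < Nat.gcd G H := Nat.gcd_pos_of_pos_left _ (by omega)
  obtain ⟨G', hG'⟩ : ∃ k, G = Nat.gcd G H * k := Nat.gcd_dvd_left G H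
  obtain ⟨H', hH'⟩ : ∃ k, H = Nat.gcd G H * k := Nat.gcd_dvd_right G H
  set g := Nat.gcd G H with hg
  have hcop' : G'.Coprime H' := by
    have h1 : Nat.gcd (g * G') (g * H') = g * Nat.gcd G' H' := Nat.gcd_mul_left _ _ _
    rw [← hG', ← hH', ← hg] at h1
    have h2 : g * 1 = g * Nat.gcd G' H' := by rw [mul_one]; exact h1
    exact (Nat.eq_of_mul_eq_mul_left hgpos h2).symm
  have hG'pos : 0 < G' := by
    rcases Nat.eq_zero_or_pos G' with h | h
    · rw [h, mul_zero] at hG'; omega
    · exact h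
  have hlt' : G' < H' := by
    have : g * G' < g * H' := by rw [← hG', ← hH']; exact hGH
    exact lt_of_mul_lt_mul_left this (Nat.zero_le _)
  have hlt2 : H' < 2 * G' := by
    have : g * H' < g * (2 * G') := by
      calc g * H' = H := hH'.symm
        _ < 2 * G := hlt
        _ = 2 * (g * G') := by rw [← hG']
        _ = _ := by ring
    exact lt_of_mul_lt_mul_left this (Nat.zero_le _)
  have heq' : H' * sg M = G' * (2 * M) := by
    have : g * (H' * sg M) = g * (G' * (2 * M)) := by
      calc g * (H' * sg M) = (g * H') * sg M := by ring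
        _ = H * sg M := by rw [← hH']
        _ = 2 * (G * M) := heq
        _ = 2 * ((g * G') * M) := by rw [← hG']
        _ = _ := by ring
    exact Nat.eq_of_mul_eq_mul_left hgpos this
  have hd : G' ∣ sg M := by
    have : G' ∣ H' * sg M := by rw [heq']; exact Dvd.intro _ rfl
    exact hcop'.dvd_of_dvd_mul_left this
  obtain ⟨t, ht⟩ := hd
  have h2M : 2 * M = H' * t := by
    have : G' * (2 * M) = G' * (H' * t) := by
      rw [← heq', ht]; ring
    exact Nat.eq_of_mul_eq_mul_left hG'pos this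
  refine ⟨G', H', t, by omega, hlt', ?_, ?_, ht, h2M, ?_⟩
  · calc H' * G = H' * (g * G') := by rw [← hG']
      _ = G' * (g * H') := by ring
      _ = G' * H := by rw [← hH']
  · rw [hG']; exact Dvd.intro_left _ rfl
  · rcases Nat.eq_zero_or_pos t with h | h
    · rw [h, mul_zero] at h2M; omega
    · exact h

/-- numerical conclusion of the main case -/
theorem numeric {X i G δ t H' M : ℕ} (hi : 4 * i < X) (hG : 0 < G) (hGt : G ≤ 3 * t * δ)
    (hδ : (G + δ) * X ≤ G * X + i * (G + δ)) (hXH : X ≤ H') (h2M : 2 * M = H' * t) :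
    X ^ 2 ≤ 8 * i * M := by
  obtain ⟨Z, rfl⟩ : ∃ Z, X = i + Z := ⟨X - i, by omega⟩
  have h1 : δ * Z ≤ i * G := by nlinarith
  have h2 : G * ((i + Z) * Z) ≤ G * (6 * i * M) := by
    calc G * ((i + Z) * Z) ≤ (3 * t * δ) * ((i + Z) * Z) := Nat.mul_le_mul_right _ hGt
      _ = 3 * (δ * Z) * ((i + Z) * t) := by ring
      _ ≤ 3 * (i * G) * (H' * t) := by
        apply Nat.mul_le_mul (Nat.mul_le_mul_left _ h1) (Nat.mul_le_mul_right _ hXH)
      _ = 3 * (i * G) * (2 * M) := by rw [h2M]
      _ = _ := by ring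
  have h3 : (i + Z) * Z ≤ 6 * i * M := Nat.le_of_mul_le_mul_left h2 hG
  have h4 : 3 * (i + Z) ≤ 4 * Z := by omega
  have h5 : 3 * (i + Z) ^ 2 ≤ 4 * ((i + Z) * Z) := by
    calc 3 * (i + Z) ^ 2 = (3 * (i + Z)) * (i + Z) := by ring
      _ ≤ (4 * Z) * (i + Z) := Nat.mul_le_mul_right _ h4
      _ = _ := by ring
  have h6 : 3 * (i + Z) ^ 2 ≤ 3 * (8 * i * M) := by
    calc 3 * (i + Z) ^ 2 ≤ 4 * ((i + Z) * Z) := h5
      _ ≤ 4 * (6 * i * M) := Nat.mul_le_mul_left _ h3
      _ = _ := by ring
  omega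

theorem main (N : ℕ) (hodd : Odd N) (hperf : Nat.Perfect N) (T : Finset ℕ)
    (hT : T ⊆ N.primeFactors) (hne : T.Nonempty) (hneq : T ≠ N.primeFactors) (X : ℕ)
    (hX : ∀ q ∈ T, X ≤ q) : X ^ 2 * pt N T ≤ 8 * T.card * N := by
  classical
  have hN0 : 0 < N := hperf.2
  have hs : sg N = 2 * N := (Nat.perfect_iff_sum_divisors_eq_two_mul hN0).1 hperf
  have hTp : ∀ q ∈ T, q.Prime := fun q hq => Nat.prime_of_mem_primeFactors (hT hq)
  set U := N.primeFactors \ T with hU
  have hUs : U ⊆ N.primeFactors := Finset.sdiff_subset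
  have hUp : ∀ q ∈ U, q.Prime := fun q hq => Nat.prime_of_mem_primeFactors (hUs hq)
  have hUne : U.Nonempty := by
    rw [hU, Finset.sdiff_nonempty]
    intro h
    exact hneq (Finset.Subset.antisymm hT h)
  have hsplit : pt N T * pt N U = N := pt_split hN0.ne' hT
  have hcop : (pt N T).Coprime (pt N U) := pt_coprime hTp hUp Finset.disjoint_sdiff
  have hG1 : 1 < pt N T := one_lt_pt hT hne
  have hM1 : 1 < pt N U := one_lt_pt hUs hUne
  have hGsg : pt N T < sg (pt N T) := sg_gt hG1
  set G := pt N T with hG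
  set M := pt N U with hM
  have hpM : sg (G * M) = 2 * (G * M) := by rw [hsplit]; exact hs
  obtain ⟨G', H', t, hG'1, hGH', hHG, hG'd, hsM, h2M, ht⟩ := reduce hG1 hM1 hcop hpM
  have hMle : M ≤ 8 * T.card * M := by
    have : 1 ≤ T.card := Finset.card_pos.2 hne
    calc M = 1 * M := (one_mul _).symm
      _ ≤ _ := Nat.mul_le_mul_right _ (by omega)
  -- primes dividing G' are in T
  have hG'p : ∀ p : ℕ, p.Prime → p ∣ G' → p ∈ T := fun p hp hd =>
    prime_dvd_pt hTp hp (hd.trans hG'd)
  have hXG' : X ≤ G' := by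
    obtain ⟨p, hp, hd⟩ := Nat.exists_prime_and_dvd hG'1.ne'
    exact (hX p (hG'p p hp hd)).trans (Nat.le_of_dvd (by omega) hd)
  have hH'M : H' ≤ 2 * M := by rw [h2M]; exact Nat.le_mul_of_pos_right _ ht
  have hMpos : 0 < M := by omega
  have key : X ^ 2 ≤ 8 * T.card * M := by
    rcases le_or_gt X (4 * T.card) with h4 | h4
    · calc X ^ 2 = X * X := sq X
        _ ≤ (4 * T.card) * (2 * M) := Nat.mul_le_mul h4 (by omega)
        _ = _ := by ring
    · rcases le_or_gt (X ^ 2) G' with h5 | h5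
      · have h6 : 1 ≤ T.card := Finset.card_pos.2 hne
        calc X ^ 2 ≤ 2 * M := by omega
          _ ≤ (8 * T.card) * M := Nat.mul_le_mul_right _ (by omega)
      · -- G' is a prime
        have hG'prime : G'.Prime := by
          obtain ⟨p, hp, k, hk⟩ := Nat.exists_prime_and_dvd hG'1.ne'
          rcases Nat.eq_or_lt_of_le (Nat.one_le_iff_ne_zero.2 (show k ≠ 0 by rintro rfl; omega))
            with h1 | h1
          · rw [hk, ← h1, mul_one]; exact hp
          · exfalso
            obtain ⟨p', hp', hd'⟩ := Nat.exists_prime_and_dvd h1.ne'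
            have h7 : X ≤ p := hX p (hG'p p hp (hk ▸ Dvd.intro _ rfl))
            have h8 : X ≤ p' := hX p' (hG'p p' hp' (hd'.trans (hk ▸ Dvd.intro_left _ rfl)))
            have h9 : p' ≤ k := Nat.le_of_dvd (by omega) hd'
            have : X * X ≤ p * k := Nat.mul_le_mul h7 (h8.trans h9)
            rw [hk, sq] at h5
            omega
        have hoddM : Odd M := by
          have h1 := hodd
          rw [← hsplit] at h1
          exact (Nat.odd_mul.1 h1).2
        obtain ⟨r, f, w, hr, hr3, -, -, hMw, hcw, hrw, hw, -, hdr⟩ :=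
          comp hMpos hoddM hG'prime (hsM ▸ Dvd.intro _ rfl)
        obtain ⟨u, hu⟩ := hdr
        have ht' : t = u * sg w := by
          have h1 : G' * t = G' * (u * sg w) := by
            rw [← hsM, hMw, sg_mul hcw, hu]; ring
          exact Nat.eq_of_mul_eq_mul_left (by omega) h1
        have h2 : 2 * (r ^ f * w) = H' * (u * sg w) := by rw [← hMw, ← ht']; exact h2M
        have h3 := key1 hr hr3 hw hrw (by omega) hGsg (by omega) hu hHG h2
        have h10 := sg_pt_le (N := N) (X := X) T (fun q hq => ⟨hTp q hq, hX q hq⟩)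
        rw [← hG] at h10
        have h11 : sg G = G + (sg G - G) := by omega
        rw [← ht'] at h3
        rw [h11] at h10
        exact numeric h4 (by omega) h3 h10 (by omega) h2M
  calc X ^ 2 * G ≤ (8 * T.card * M) * G := Nat.mul_le_mul_right _ key
    _ = 8 * T.card * (G * M) := by ring
    _ = _ := by rw [hsplit]

theorem even_sg {p v : ℕ} (hp : p.Prime) (hodd : p % 2 = 1) (h : Odd v) : 2 ∣ sg (p ^ v) := by
  rw [sg_pp hp, ← even_iff_two_dvd, Finset.even_sum_iff_even_card_odd]
  have : (Finset.range (v + 1)).filter (fun x => Odd (p ^ x)) = Finset.range (v + 1) := by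
    apply Finset.filter_true_of_mem
    intro x _
    exact (Nat.odd_iff.2 hodd).pow
  rw [this, Finset.card_range]
  exact h.add_one

/-- at most one exponent of an odd perfect number is odd -/
theorem euler {N : ℕ} (hodd : Odd N) (hperf : Nat.Perfect N) {p q : ℕ} (hp : p ∈ N.primeFactors)
    (hq : q ∈ N.primeFactors) (hpq : p ≠ q) (h1 : Odd (N.factorization p))
    (h2 : Odd (N.factorization q)) : False := by
  have hN0 : 0 < N := hperf.2
  have hs : sg N = 2 * N := (Nat.perfect_iff_sum_divisors_eq_two_mul hN0).1 hperf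
  have hpp := Nat.prime_of_mem_primeFactors hp
  have hqp := Nat.prime_of_mem_primeFactors hq
  have hpo : p % 2 = 1 := Nat.odd_iff.1 (hodd.of_dvd_nat (Nat.dvd_of_mem_primeFactors hp))
  have hqo : q % 2 = 1 := Nat.odd_iff.1 (hodd.of_dvd_nat (Nat.dvd_of_mem_primeFactors hq))
  have h3 : sg N = sg (pt N {p}) * (sg (pt N {q}) * sg (pt N ((N.primeFactors \ {p}) \ {q}))) := by
    have hsub1 : ({p} : Finset ℕ) ⊆ N.primeFactors := by simpa using hp
    have hsub2 : ({q} : Finset ℕ) ⊆ N.primeFactors \ {p} := by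
      simp only [Finset.singleton_subset_iff, Finset.mem_sdiff, Finset.mem_singleton]
      exact ⟨hq, hpq.symm⟩
    have hA : ∀ x ∈ ({p} : Finset ℕ), x.Prime := by simpa using hpp
    have hB : ∀ x ∈ ({q} : Finset ℕ), x.Prime := by simpa using hqp
    have hC : ∀ x ∈ N.primeFactors \ {p}, x.Prime := fun x hx =>
      Nat.prime_of_mem_primeFactors (Finset.sdiff_subset hx)
    have hD : ∀ x ∈ (N.primeFactors \ {p}) \ {q}, x.Prime := fun x hx =>
      hC x (Finset.sdiff_subset hx)
    have e1 : pt N {p} * pt N (N.primeFactors \ {p}) = N := pt_split hN0.ne' hsub1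
    have e2 : pt N {q} * pt N ((N.primeFactors \ {p}) \ {q}) = pt N (N.primeFactors \ {p}) := by
      unfold pt
      rw [mul_comm, Finset.prod_sdiff hsub2]
    conv_lhs => rw [← e1]
    rw [sg_mul (pt_coprime hA hC Finset.disjoint_sdiff), ← e2,
      sg_mul (pt_coprime hB hD Finset.disjoint_sdiff)]
  have h4 : pt N {p} = p ^ N.factorization p := by simp [pt]
  have h5 : pt N {q} = q ^ N.factorization q := by simp [pt]
  obtain ⟨a, ha⟩ := even_sg hpp hpo h1
  obtain ⟨b, hb⟩ := even_sg hqp hqo h2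
  rw [h4, h5, ha, hb, hs] at h3
  have h6 : 4 ∣ 2 * N := by rw [h3]; exact ⟨a * (b * sg (pt N ((N.primeFactors \ {p}) \ {q}))), by ring⟩
  have := Nat.odd_iff.1 hodd
  omega

theorem pow_le_pt {N : ℕ} (hodd : Odd N) (hperf : Nat.Perfect N) {T : Finset ℕ}
    (hT : T ⊆ N.primeFactors) (hne : T.Nonempty) {X : ℕ} (hX : ∀ q ∈ T, X ≤ q) :
    X ^ (2 * T.card - 1) ≤ pt N T := by
  classical
  have hN0 : 0 < N := hperf.2
  have hTp : ∀ q ∈ T, q.Prime := fun q hq => Nat.prime_of_mem_primeFactors (hT hq)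
  rcases Nat.eq_zero_or_pos X with h0 | h0
  · have hc : 0 < T.card := Finset.card_pos.2 hne
    rw [h0, zero_pow (by omega)]
    exact Nat.zero_le _
  have hall : ∀ S ⊆ T, (∀ q ∈ S, 2 ≤ N.factorization q) → X ^ (2 * S.card) ≤ pt N S := by
    intro S hS h2
    unfold pt
    calc X ^ (2 * S.card) = ∏ q ∈ S, X ^ 2 := by rw [Finset.prod_const, ← pow_mul]
      _ ≤ ∏ q ∈ S, q ^ N.factorization q := by
        apply Finset.prod_le_prod' 
        intro q hq
        calc X ^ 2 ≤ q ^ 2 := Nat.pow_le_pow_left (hX q (hS hq)) 2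
          _ ≤ q ^ N.factorization q := Nat.pow_le_pow_right (hTp q (hS hq)).pos (h2 q hq)
  by_cases h : ∀ q ∈ T, 2 ≤ N.factorization q
  · exact (Nat.pow_le_pow_right h0 (by omega)).trans (hall T (Finset.Subset.refl _) h)
  · push Not at h
    obtain ⟨P, hPT, hv⟩ := h
    have hPp := hTp P hPT
    have hpos := hPp.factorization_pos_of_dvd hN0.ne' (Nat.dvd_of_mem_primeFactors (hT hPT))
    have hv1 : N.factorization P = 1 := by omega
    have hrest : ∀ q ∈ T.erase P, 2 ≤ N.factorization q := by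
      intro q hq
      have hqT := Finset.mem_of_mem_erase hq
      have hqP := Finset.ne_of_mem_erase hq
      have hqpos := (hTp q hqT).factorization_pos_of_dvd hN0.ne'
        (Nat.dvd_of_mem_primeFactors (hT hqT))
      by_contra hcon
      have hq1 : N.factorization q = 1 := by omega
      exact euler hodd hperf (hT hqT) (hT hPT) hqP (by rw [hq1]; exact odd_one)
        (by rw [hv1]; exact odd_one)
    have h1 := hall (T.erase P) (Finset.erase_subset _ _) hrest
    have h2 : pt N T = P * pt N (T.erase P) := by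
      unfold pt
      rw [← Finset.mul_prod_erase T _ hPT, hv1, pow_one]
    have hcard : (T.erase P).card = T.card - 1 := Finset.card_erase_of_mem hPT
    have hc : 0 < T.card := Finset.card_pos.2 hne
    rw [h2]
    calc X ^ (2 * T.card - 1) = X * X ^ (2 * (T.erase P).card) := by
          rw [← pow_succ', hcard]; congr 1; omega
      _ ≤ P * pt N (T.erase P) := Nat.mul_le_mul (hX P hPT) h1

/-- Let `N` be an odd perfect number and `T` a nonempty set of prime factors of `N`, not all of
them, all of its elements being at least `X`.  Then `X ^ 2` times the `T`-part of `N` is at most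
`8 |T| N`; in particular `X ^ (2 |T| + 1) ≤ 8 |T| N`. -/
theorem result (N : ℕ) (hodd : Odd N) (hperf : Nat.Perfect N) (T : Finset ℕ)
    (hT : T ⊆ N.primeFactors) (hne : T.Nonempty) (hneq : T ≠ N.primeFactors) (X : ℕ)
    (hX : ∀ q ∈ T, X ≤ q) :
    X ^ 2 * ∏ q ∈ T, q ^ N.factorization q ≤ 8 * T.card * N ∧
      X ^ (2 * T.card + 1) ≤ 8 * T.card * N := by
  have h1 := main N hodd hperf T hT hne hneq X hX
  refine ⟨h1, ?_⟩
  have h2 := pow_le_pt hodd hperf hT hne hX
  have hc : 0 < T.card := Finset.card_pos.2 hne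
  calc X ^ (2 * T.card + 1) = X ^ 2 * X ^ (2 * T.card - 1) := by
        rw [← pow_add]; congr 1; omega
    _ ≤ X ^ 2 * pt N T := Nat.mul_le_mul_left _ h2
    _ ≤ _ := h1

end Pool.Agent.Results.MP_f02ea4_nt.IthLargestPrime
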