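import Mathlib
set_option autoImplicit false
namespace Pool.Agent.Results.MP_f02ea4_nt.RadicalBound
open Finset

/-- sum of divisors -/
def sg (n : ℕ) : ℕ := ∑ d ∈ n.divisors, d

/-- the product of `p ^ (v_p(n) - 2)` over the primes dividing `n` -/
def E (n : ℕ) : ℕ := n.factorization.prod (fun p k => p ^ (k - 2))

/-- odd, positive, all exponents even -/
def Sq (n : ℕ) : Prop := Odd n ∧ ∀ p, Even (n.factorization p)

theorem sg_mul {m n : ℕ} (h : m.Coprime n) : sg (m * n) = sg m * sg n :=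
  Nat.Coprime.sum_divisors_mul h

theorem sg_ge {n : ℕ} (hn : 0 < n) : n ≤ sg n :=
  Finset.single_le_sum (f := fun d => d) (fun _ _ => Nat.zero_le _) (Nat.mem_divisors_self n hn.ne')

theorem sg_pp {p k : ℕ} (hp : p.Prime) : sg (p ^ k) = ∑ i ∈ range (k + 1), p ^ i := by
  unfold sg
  rw [Nat.divisors_prime_pow hp, Finset.sum_map]
  rfl

theorem sg_sq {p : ℕ} (hp : p.Prime) : sg (p ^ 2) = p ^ 2 + p + 1 := by
  rw [sg_pp hp]
  simp [Finset.sum_range_succ]
  ring

theorem sg_p {p : ℕ} (hp : p.Prime) : sg p = p + 1 := by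
  have := sg_pp (k := 1) hp
  rw [pow_one] at this
  rw [this]
  simp [Finset.sum_range_succ]
  ring

theorem sg_pp_lt {p k : ℕ} (hp : p.Prime) (h3 : 3 ≤ p) : 2 * sg (p ^ k) < 3 * p ^ k := by
  rw [sg_pp hp]
  induction k with
  | zero => simp
  | succ k ih =>
    rw [Finset.sum_range_succ, mul_add]
    have : 3 * p ^ k ≤ p ^ (k + 1) := by
      rw [pow_succ]; nlinarith [pow_pos hp.pos k]
    omega

theorem E_pos {n : ℕ} : 0 < E n := by
  unfold E
  rw [Finsupp.prod]
  apply Finset.prod_pos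
  intro p hp
  rw [Nat.support_factorization] at hp
  exact pow_pos (Nat.prime_of_mem_primeFactors hp).pos _

theorem E_mul {m n : ℕ} (h : m.Coprime n) : E (m * n) = E m * E n := by
  unfold E
  rw [Nat.factorization_mul_of_coprime h]
  exact Finsupp.prod_add_index_of_disjoint (Nat.Coprime.disjoint_primeFactors h) _

theorem E_pp {p k : ℕ} (hp : p.Prime) : E (p ^ k) = p ^ (k - 2) := by
  unfold E
  rw [hp.factorization_pow, Finsupp.prod_single_index]
  simp

/-- `rad(n)` -/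
def rd (n : ℕ) : ℕ := ∏ p ∈ n.primeFactors, p

theorem E_rd {n : ℕ} (hn : n ≠ 0) (h : ∀ p ∈ n.primeFactors, 2 ≤ n.factorization p) :
    E n * rd n ^ 2 = n := by
  conv_rhs => rw [← Nat.prod_factorization_pow_eq_self hn]
  unfold E rd
  rw [Finsupp.prod, Finsupp.prod, Nat.support_factorization, ← Finset.prod_pow, ← Finset.prod_mul_distrib]
  apply Finset.prod_congr rfl
  intro p hp
  rw [← pow_add]
  congr 1
  have := h p hp
  omega

theorem Sq.ne {n : ℕ} (h : Sq n) : n ≠ 0 := by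
  rintro rfl
  exact absurd h.1 (by decide)

theorem Sq.pos {n : ℕ} (h : Sq n) : 0 < n := Nat.pos_of_ne_zero h.ne

theorem Sq.two_le {n : ℕ} (h : Sq n) : ∀ p ∈ n.primeFactors, 2 ≤ n.factorization p := by
  intro p hp
  have h1 := h.2 p
  have h2 := (Nat.prime_of_mem_primeFactors hp).factorization_pos_of_dvd h.ne (Nat.dvd_of_mem_primeFactors hp)
  obtain ⟨k, hk⟩ := h1
  omega

/-- extraction of a component -/
theorem comp {n r : ℕ} (hn : Sq n) (hr : r.Prime) (h : r ∣ sg n) :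
    ∃ p g m : ℕ, p.Prime ∧ 3 ≤ p ∧ 1 ≤ g ∧ n = p ^ (2 * g) * m ∧ (p ^ (2 * g)).Coprime m ∧ Sq m ∧
      r ∣ sg (p ^ (2 * g)) := by
  have h1 : sg n = ∏ p ∈ n.primeFactors, ∑ k ∈ range (n.factorization p + 1), p ^ k :=
    Nat.sum_divisors hn.ne
  rw [h1] at h
  obtain ⟨p, hp, hd⟩ := (hr.prime.dvd_finsetProd_iff _).1 h
  have hpp := Nat.prime_of_mem_primeFactors hp
  have hpd := Nat.dvd_of_mem_primeFactors hp
  have hp2 : p ≠ 2 := by
    rintro rfl
    have := Nat.odd_iff.1 hn.1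
    omega
  obtain ⟨g, hg⟩ := hn.2 p
  have hpos := hpp.factorization_pos_of_dvd hn.ne hpd
  have hg' : n.factorization p = 2 * g := by omega
  have hdec : n = p ^ (2 * g) * (n / p ^ (2 * g)) := by
    have := Nat.ordProj_mul_ordCompl_eq_self n p
    rw [hg'] at this
    exact this.symm
  have hcop : (p ^ (2 * g)).Coprime (n / p ^ (2 * g)) := by
    have := Nat.coprime_ordCompl hpp hn.ne
    rw [hg'] at this
    exact Nat.Coprime.pow_left _ this
  refine ⟨p, g, n / p ^ (2 * g), hpp, ?_, by omega, hdec, hcop, ⟨?_, ?_⟩, ?_⟩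
  · have := hpp.two_le
    omega
  · have ho := hn.1
    rw [hdec] at ho
    exact (Nat.odd_mul.1 ho).2
  · intro r
    by_cases hrp : r = p
    · subst hrp
      have h0 : (n / r ^ (2 * g)).factorization r = 0 := by
        apply Nat.factorization_eq_zero_of_not_dvd
        intro hc
        have hd2 : r ∣ Nat.gcd (r ^ (2 * g)) (n / r ^ (2 * g)) :=
          Nat.dvd_gcd (dvd_pow_self r (by omega)) hc
        rw [hcop] at hd2
        exact hpp.one_lt.ne' (Nat.dvd_one.1 hd2)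
      rw [h0]
      exact Even.zero
    · have h2 := hn.2 r
      rw [hdec, Nat.factorization_mul (pow_ne_zero _ hpp.ne_zero)
        (by intro h0; rw [h0, mul_zero] at hdec; exact hn.ne hdec)] at h2
      rw [Finsupp.add_apply, hpp.factorization_pow, Finsupp.single_eq_of_ne hrp, zero_add] at h2
      exact h2
  · rw [sg_pp hpp, ← hg']
    exact hd

theorem E_comp_ge {p g m : ℕ} (hp : p.Prime) (hg : 2 ≤ g) (hcop : (p ^ (2 * g)).Coprime m) :
    (p ^ (2 * g)) ^ 2 ≤ E (p ^ (2 * g) * m) ^ 4 := by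
  rw [E_mul hcop, E_pp hp]
  have h1 : 1 ≤ E m := E_pos
  calc (p ^ (2 * g)) ^ 2 = p ^ (4 * g) := by rw [← pow_mul]; congr 1; ring
    _ ≤ p ^ ((2 * g - 2) * 4) := Nat.pow_le_pow_right hp.pos (by omega)
    _ = (p ^ (2 * g - 2)) ^ 4 := by rw [← pow_mul]
    _ ≤ (p ^ (2 * g - 2) * E m) ^ 4 := Nat.pow_le_pow_left (Nat.le_mul_of_pos_right _ E_pos) 4

theorem E_mul_ge {p g m : ℕ} (hcop : (p ^ (2 * g)).Coprime m) :
    E m ≤ E (p ^ (2 * g) * m) := by
  rw [E_mul hcop]
  exact Nat.le_mul_of_pos_left _ E_pos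

/-- the chain lemma -/
theorem chain : ∀ O : ℕ, Sq O → ∀ A K t w : ℕ, A.Prime → 2 ≤ K → O = t * w → K * sg O = A * w →
    2 * t ≤ 3 * w * E O ^ 4 := by
  intro O
  induction O using Nat.strong_induction_on with
  | _ O ih =>
  intro hO A K t w hA hK hOt hKA
  have hO0 := hO.pos
  have hw0 : 0 < w := Nat.pos_of_ne_zero (by rintro rfl; simp at hOt; omega)
  have ht0 : 0 < t := Nat.pos_of_ne_zero (by rintro rfl; simp at hOt; omega)
  have hE : 1 ≤ E O ^ 4 := Nat.one_le_pow _ _ E_pos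
  have hsO := sg_ge hO0
  by_cases hAK : A ∣ K
  · obtain ⟨j, hj⟩ := hAK
    have h1 : j * sg O = w := by
      have : A * (j * sg O) = A * w := by rw [← hKA, hj]; ring
      exact Nat.eq_of_mul_eq_mul_left hA.pos this
    have hj0 : 1 ≤ j := Nat.pos_of_ne_zero (by rintro rfl; simp at h1; omega)
    have h2 : O ≤ w := by nlinarith
    have h3 : t ≤ 1 := by
      by_contra hc
      have : 2 * w ≤ t * w := Nat.mul_le_mul_right _ (by omega)
      omega
    nlinarith
  · have hAs : A ∣ sg O := by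
      have : A ∣ K * sg O := ⟨w, hKA⟩
      exact ((hA.dvd_mul).1 this).resolve_left hAK
    obtain ⟨p, g, m, hp, hp3, hg, hOm, hcop, hm, hAp⟩ := comp hO hA hAs
    obtain ⟨s, hs⟩ := hAp
    have hs0 : 1 ≤ s := by
      apply Nat.pos_of_ne_zero
      rintro rfl
      have := sg_ge (pow_pos hp.pos (2 * g))
      rw [hs] at this
      have := pow_pos hp.pos (2 * g)
      omega
    have hm0 := hm.pos
    have hsm := sg_ge hm0
    have hlt := sg_pp_lt (k := 2 * g) hp hp3
    have hAC : 2 * A < 3 * p ^ (2 * g) := by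
      rw [hs] at hlt
      nlinarith
    have h2t : 2 * t ≤ A := by
      have h1 : K * (t * w) ≤ A * w := by
        rw [← hOt, ← hKA]; exact Nat.mul_le_mul_left _ hsO
      have h2 : (2 * t) * w ≤ A * w := by nlinarith
      exact Nat.le_of_mul_le_mul_right h2 hw0
    by_cases hg2 : 2 ≤ g
    · have h1 := E_comp_ge hp hg2 hcop
      rw [← hOm] at h1
      have h2 : p ^ (2 * g) ≤ E O ^ 4 := by
        have := pow_pos hp.pos (2 * g)
        nlinarith
      have h5 : 2 * t ≤ 3 * E O ^ 4 := by omega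
      calc 2 * t ≤ 3 * E O ^ 4 := h5
        _ = 3 * 1 * E O ^ 4 := by ring
        _ ≤ 3 * w * E O ^ 4 := Nat.mul_le_mul_right _ (Nat.mul_le_mul_left _ hw0)
    · have hg1 : g = 1 := by omega
      subst hg1
      simp only [mul_one] at hOm hcop hs hlt hAC
      by_cases hpt : p ∣ t
      · by_cases hpw : p ∣ w
        · obtain ⟨t', rfl⟩ := hpt
          obtain ⟨w', rfl⟩ := hpw
          have hmt : m = t' * w' := by
            have : p ^ 2 * m = p ^ 2 * (t' * w') := by rw [← hOm, hOt]; ring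
            exact Nat.eq_of_mul_eq_mul_left (pow_pos hp.pos 2) this
          have hlt' : m < O := by
            rw [hOm]
            have : 1 < p ^ 2 := Nat.one_lt_pow (by norm_num) hp.one_lt
            nlinarith
          have heq : (K * s) * sg m = p * w' := by
            rw [hOm, sg_mul hcop, hs] at hKA
            have : A * ((K * s) * sg m) = A * (p * w') := by rw [← hKA]; ring
            exact Nat.eq_of_mul_eq_mul_left hA.pos this
          have := ih m hlt' hm p (K * s) t' w' hp (by nlinarith) hmt heq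
          have hEm : E m ^ 4 ≤ E O ^ 4 := by
            apply Nat.pow_le_pow_left
            rw [hOm]
            have := E_mul_ge (g := 1) (by simpa using hcop)
            simpa using this
          calc 2 * (p * t') = p * (2 * t') := by ring
            _ ≤ p * (3 * w' * E m ^ 4) := Nat.mul_le_mul_left _ this
            _ ≤ p * (3 * w' * E O ^ 4) := Nat.mul_le_mul_left _ (Nat.mul_le_mul_left _ hEm)
            _ = 3 * (p * w') * E O ^ 4 := by ring
        · exfalso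
          have h1 : w ∣ p ^ 2 * m := by rw [← hOm, hOt]; exact Dvd.intro_left _ rfl
          have h2 : w.Coprime (p ^ 2) := Nat.Coprime.pow_right _ ((Nat.Prime.coprime_iff_not_dvd hp).2 hpw).symm
          have h3 : w ∣ m := h2.dvd_of_dvd_mul_left h1
          have h4 := Nat.le_of_dvd hm0 h3
          have heq : (K * s) * sg m = w := by
            rw [hOm, sg_mul hcop, hs] at hKA
            have : A * ((K * s) * sg m) = A * w := by rw [← hKA]; ring
            exact Nat.eq_of_mul_eq_mul_left hA.pos this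
          have : 2 ≤ K * s := by nlinarith
          nlinarith
      · have h1 : p ^ 2 ∣ t * w := by rw [← hOt, hOm]; exact Dvd.intro _ rfl
        have h2 : (p ^ 2).Coprime t := Nat.Coprime.pow_left _ ((Nat.Prime.coprime_iff_not_dvd hp).2 hpt)
        have h3 : p ^ 2 ∣ w := h2.dvd_of_dvd_mul_left h1
        have h4 := Nat.le_of_dvd hw0 h3
        have h5 : 2 * t ≤ 3 * w := by omega
        exact h5.trans (Nat.le_mul_of_pos_right _ hE)

theorem aux1 {q : ℕ} (hq : 3 ≤ q) (h : (2 * q + 1) * (q + 1) ≤ 2 * (q ^ 2 + q + 1)) : False := by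
  nlinarith

theorem aux2 {P b q : ℕ} (h : P * b ≤ q ^ 2 + q + 1) (h2 : q + 1 ≤ 2 * b) :
    P * (q + 1) ≤ 2 * (q ^ 2 + q + 1) := by
  calc P * (q + 1) ≤ P * (2 * b) := Nat.mul_le_mul_left _ h2
    _ = 2 * (P * b) := by ring
    _ ≤ _ := Nat.mul_le_mul_left _ h

theorem aux3 {b q w : ℕ} (hq : 3 ≤ q) (h : b * (b ^ 2 + b + 1) ≤ q * w) (h2 : q + 1 ≤ 2 * b) :
    q ^ 2 + q + 1 ≤ 8 * w := by
  have h4 : (q + 1) ^ 3 ≤ (2 * b) ^ 3 := Nat.pow_le_pow_left h2 3
  have h5 : (2 * b) ^ 3 ≤ 8 * (b * (b ^ 2 + b + 1)) := by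
    calc (2 * b) ^ 3 = 8 * (b * b ^ 2) := by ring
      _ ≤ _ := Nat.mul_le_mul_left _ (Nat.mul_le_mul_left _ (by omega))
  have h6 : q * (q + 1) ^ 2 ≤ (q + 1) ^ 3 := by
    calc q * (q + 1) ^ 2 ≤ (q + 1) * (q + 1) ^ 2 := Nat.mul_le_mul_right _ (by omega)
      _ = _ := by ring
  have h7 : q * (q + 1) ^ 2 ≤ q * (8 * w) := by
    calc q * (q + 1) ^ 2 ≤ 8 * (b * (b ^ 2 + b + 1)) := h6.trans (h4.trans h5)
      _ ≤ 8 * (q * w) := Nat.mul_le_mul_left _ h
      _ = _ := by ring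
  have h8 : (q + 1) ^ 2 ≤ 8 * w := Nat.le_of_mul_le_mul_left h7 (by omega)
  calc q ^ 2 + q + 1 ≤ (q + 1) ^ 2 := by ring_nf; omega
    _ ≤ _ := h8

theorem aux4 {b q : ℕ} (hq : 13 ≤ q) (h : 2 * b ^ 2 ≤ q ^ 2 + q + 2) : 50 * b ≤ 37 * q := by
  by_contra hc
  push Not at hc
  have : (37 * q) ^ 2 ≤ (50 * b) ^ 2 := Nat.pow_le_pow_left hc.le 2
  nlinarith

theorem aux5 {a b q : ℕ} (hqab : q ≤ a + b + 1) (h2b : q + 1 ≤ 2 * b) (h6 : 50 * b ≤ 37 * q)
    (hq : 13 ≤ q) : q ^ 2 ≤ 8 * (a * b) := by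
  have h8 : (q : ℤ) ≤ a + b + 1 := by exact_mod_cast hqab
  have h9 : (q : ℤ) + 1 ≤ 2 * b := by exact_mod_cast h2b
  have h10 : 50 * (b : ℤ) ≤ 37 * q := by exact_mod_cast h6
  have h11 : (13 : ℤ) ≤ q := by exact_mod_cast hq
  have h12 : (q : ℤ) ^ 2 ≤ 8 * (a * b) := by
    have e1 : ((q : ℤ) - 1 - b) * b ≤ a * b := mul_le_mul_of_nonneg_right (by linarith) (by linarith)
    have e2 : (0 : ℤ) ≤ (2 * b - (q + 1)) * (37 * q - 50 * b) :=
      mul_nonneg (by linarith) (by linarith)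
    have e3 : (0 : ℤ) ≤ (37 * q - 50 * b) * q := mul_nonneg (by linarith) (by linarith)
    have e4 : (0 : ℤ) ≤ (q - 13) * q := mul_nonneg (by linarith) (by linarith)
    nlinarith
  exact_mod_cast h12

theorem aux6 {a b q n P w : ℕ} (hq : 13 ≤ q) (h7 : q ^ 2 ≤ 8 * (a * b)) (h8 : (a * b) ^ 2 ≤ q ^ 2 * n)
    (hn : n ≤ w) (hP : P ≤ q ^ 2 + q + 1) : P ≤ 88 * w := by
  have h9 : (q ^ 2) ^ 2 ≤ (8 * (a * b)) ^ 2 := Nat.pow_le_pow_left h7 2
  have h10 : q ^ 2 * q ^ 2 ≤ q ^ 2 * (64 * n) := by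
    calc q ^ 2 * q ^ 2 = (q ^ 2) ^ 2 := by ring
      _ ≤ (8 * (a * b)) ^ 2 := h9
      _ = 64 * (a * b) ^ 2 := by ring
      _ ≤ 64 * (q ^ 2 * n) := Nat.mul_le_mul_left _ h8
      _ = _ := by ring
  have h11 : q ^ 2 ≤ 64 * n := Nat.le_of_mul_le_mul_left h10 (by positivity)
  have h12 : 64 * q + 64 ≤ 24 * q ^ 2 := by nlinarith
  omega

theorem aux7 {a q : ℕ} (ha : 3 ≤ a) (h : a ^ 2 + a + 1 = q ^ 2) : False := by
  have h5 : a < q := by nlinarith
  have h6 : (a + 1) ^ 2 ≤ q ^ 2 := Nat.pow_le_pow_left h5 2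
  nlinarith

theorem aux8 {P q : ℕ} (hq : 3 ≤ q) (h : P ≤ q ^ 2 + q + 1) : 9 * P ≤ 13 * q ^ 2 := by
  nlinarith

theorem aux9 {P q R : ℕ} (h : 9 * P ≤ 13 * q ^ 2) (hR : P + 1 = 2 * R) :
    9 * (P * P) ≤ 26 * (q ^ 2 * R) := by
  calc 9 * (P * P) = (9 * P) * P := by ring
    _ ≤ (13 * q ^ 2) * (2 * R) := Nat.mul_le_mul h (by omega)
    _ = _ := by ring

theorem aux10 {P q C X : ℕ} (h : 9 * P ≤ 13 * q ^ 2) (h2 : 2 * q < 3 * C) (h3 : C ^ 2 ≤ X) :
    P ≤ 88 * X := by
  have h9 : (2 * q) ^ 2 ≤ (3 * C) ^ 2 := Nat.pow_le_pow_left h2.le 2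
  have h10 : 4 * q ^ 2 ≤ 9 * C ^ 2 := by
    calc 4 * q ^ 2 = (2 * q) ^ 2 := by ring
      _ ≤ (3 * C) ^ 2 := h9
      _ = _ := by ring
  omega

theorem aux11 {k ν s : ℕ} (hs : 0 < s) (hk : 1 ≤ k) (h : k * ν * s ≤ s) (hν : 1 ≤ ν) : ν = 1 := by
  have h1 : k * ν ≤ 1 := by
    have : k * ν * s ≤ 1 * s := by omega
    exact Nat.le_of_mul_le_mul_right this hs
  have : ν ≤ k * ν := Nat.le_mul_of_pos_left _ hk
  omega

theorem case_two {a b q k R w P O ν₁ ν₂ : ℕ} (ha : a.Prime) (hb : b.Prime) (hq : q.Prime)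
    (ha3 : 3 ≤ a) (hb3 : 3 ≤ b) (hq3 : 3 ≤ q) (hab : a < b) (hO : 0 < O)
    (h1 : a ^ 2 + a + 1 = q * ν₁) (h2 : b ^ 2 + b + 1 = q * ν₂) (hw : w = k * (ν₁ * ν₂) * sg O)
    (hRw : R * w = a ^ 2 * (b ^ 2 * O)) (hPk : q ^ 2 + q + 1 = P * k) (hPR : P + 1 = 2 * R) :
    P ≤ 88 * w := by
  have hk0 : 1 ≤ k := Nat.pos_of_ne_zero (by rintro rfl; simp at hPk)
  have hν1 : 1 ≤ ν₁ := Nat.pos_of_ne_zero (by rintro rfl; simp at h1)
  have hν2 : 1 ≤ ν₂ := Nat.pos_of_ne_zero (by rintro rfl; simp at h2)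
  have hsO : 1 ≤ sg O := le_trans hO (sg_ge hO)
  have hPq : P ≤ q ^ 2 + q + 1 := by rw [hPk]; exact Nat.le_mul_of_pos_right _ hk0
  have hodda : a % 2 = 1 := (ha.eq_two_or_odd).resolve_left (by omega)
  have hoddb : b % 2 = 1 := (hb.eq_two_or_odd).resolve_left (by omega)
  have hab2 : a + 2 ≤ b := by omega
  have hqab : q ≤ a + b + 1 := by
    have hd : q ∣ (b - a) * (a + b + 1) := by
      have e : (b - a) * (a + b + 1) = (b ^ 2 + b + 1) - (a ^ 2 + a + 1) := by
        obtain ⟨d, rfl⟩ := Nat.exists_eq_add_of_lt hab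
        have : a + d + 1 - a = d + 1 := by omega
        rw [this]
        have h3 : (a + d + 1) ^ 2 + (a + d + 1) + 1 = (a ^ 2 + a + 1) + (d + 1) * (a + (a + d + 1) + 1) := by ring
        rw [h3, Nat.add_sub_cancel_left]
      rw [e]
      exact Nat.dvd_sub ⟨ν₂, h2⟩ ⟨ν₁, h1⟩
    rcases (hq.dvd_mul).1 hd with h3 | h3
    · have := Nat.le_of_dvd (by omega) h3
      omega
    · exact Nat.le_of_dvd (by omega) h3
  have h2b : q + 1 ≤ 2 * b := by omega
  have hνw : ν₁ * ν₂ ≤ w := by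
    rw [hw]
    calc ν₁ * ν₂ = 1 * (ν₁ * ν₂) * 1 := by ring
      _ ≤ k * (ν₁ * ν₂) * sg O := Nat.mul_le_mul (Nat.mul_le_mul_right _ hk0) hsO
  -- useful bound
  have key : b * ν₂ ≤ w → P ≤ 88 * w := by
    intro h
    have h3 : b * (b ^ 2 + b + 1) ≤ q * w := by
      rw [h2]; calc b * (q * ν₂) = q * (b * ν₂) := by ring
        _ ≤ q * w := Nat.mul_le_mul_left _ h
    have := aux3 hq3 h3 h2b
    omega
  by_cases hbw : b ∣ w
  · rw [hw] at hbw
    rcases (hb.dvd_mul).1 hbw with h3 | h3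
    · rcases (hb.dvd_mul).1 h3 with h4 | h4
      · have h5 := Nat.le_of_dvd hk0 h4
        have h6 : k ≤ w := by
          rw [hw]
          calc k = k * 1 * 1 := by ring
            _ ≤ k * (ν₁ * ν₂) * sg O := Nat.mul_le_mul (Nat.mul_le_mul_left _ (Nat.mul_pos hν1 hν2)) hsO
        have h7 : P * b ≤ q ^ 2 + q + 1 := by rw [hPk]; exact Nat.mul_le_mul_left _ h5
        have h8 : P * (q + 1) ≤ 2 * (q ^ 2 + q + 1) := aux2 h7 h2b
        have h9 : P ≤ 2 * q := by
          by_contra hc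
          have : (2 * q + 1) * (q + 1) ≤ P * (q + 1) := Nat.mul_le_mul_right _ (by omega)
          exact aux1 hq3 (this.trans h8)
        omega
      · rcases (hb.dvd_mul).1 h4 with h5 | h5
        · apply key
          have := Nat.le_of_dvd hν1 h5
          exact le_trans (Nat.mul_le_mul_right _ this) hνw
        · exfalso
          have h6 : b ∣ b ^ 2 + b + 1 := by rw [h2]; exact Dvd.dvd.mul_left h5 q
          have h7 : b ∣ 1 := by
            have : b ∣ b ^ 2 + b := ⟨b + 1, by ring⟩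
            exact (Nat.dvd_add_right this).1 h6
          have := Nat.dvd_one.1 h7
          omega
    · apply key
      have h4 := Nat.le_of_dvd hsO h3
      rw [hw]
      calc b * ν₂ ≤ sg O * ν₂ := Nat.mul_le_mul_right _ h4
        _ = 1 * (1 * ν₂) * sg O := by ring
        _ ≤ k * (ν₁ * ν₂) * sg O := Nat.mul_le_mul_right _ (Nat.mul_le_mul hk0 (Nat.mul_le_mul_right _ hν1))
  · have h3 : b ^ 2 ∣ R := by
      have h4 : b ^ 2 ∣ R * w := by rw [hRw]; exact ⟨a ^ 2 * O, by ring⟩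
      have h5 : (b ^ 2).Coprime w := Nat.Coprime.pow_left _ ((Nat.Prime.coprime_iff_not_dvd hb).2 hbw)
      exact h5.dvd_of_dvd_mul_right h4
    have hR0 : 0 < R := by omega
    have h4 : b ^ 2 ≤ R := Nat.le_of_dvd hR0 h3
    have h5 : 2 * b ^ 2 ≤ q ^ 2 + q + 2 := by omega
    by_cases hq13 : 13 ≤ q
    · have h6 : 50 * b ≤ 37 * q := aux4 hq13 h5
      have h7 : q ^ 2 ≤ 8 * (a * b) := aux5 hqab h2b h6 hq13
      have h8 : (a * b) ^ 2 ≤ q ^ 2 * (ν₁ * ν₂) := by
        have : q ^ 2 * (ν₁ * ν₂) = (a ^ 2 + a + 1) * (b ^ 2 + b + 1) := by rw [h1, h2]; ring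
        rw [this, mul_pow]
        exact Nat.mul_le_mul (by omega) (by omega)
      exact aux6 hq13 h7 h8 hνw hPq
    · exfalso
      have hb8 : b ≤ 8 := by
        by_contra hc
        have h6 : 9 ^ 2 ≤ b ^ 2 := Nat.pow_le_pow_left (by omega) 2
        have h7 : q ^ 2 ≤ 12 ^ 2 := Nat.pow_le_pow_left (by omega) 2
        omega
      have ha6 : a ≤ 6 := by omega
      have hq1 : q ∣ a ^ 2 + a + 1 := ⟨ν₁, h1⟩
      interval_cases a
      · have := (Nat.prime_dvd_prime_iff_eq hq (by norm_num : Nat.Prime 13)).1 (by simpa using hq1)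
        omega
      · omega
      · have := (Nat.prime_dvd_prime_iff_eq hq (by norm_num : Nat.Prime 31)).1 (by simpa using hq1)
        omega
      · omega

theorem case_one {a f q k R w P O ν : ℕ} (ha : a.Prime) (ha3 : 3 ≤ a) (hf : 1 ≤ f) (hq3 : 3 ≤ q)
    (hO : Sq O) (hcop : (a ^ (2 * f)).Coprime O) (h1 : sg (a ^ (2 * f)) = q ^ 2 * ν)
    (hw : k * ν * sg O = w)
    (hRw : R * w = a ^ (2 * f) * O) (hPk : q ^ 2 + q + 1 = P * k) (hPR : P + 1 = 2 * R) :
    P ≤ 88 * w * E (a ^ (2 * f) * O) ^ 4 := by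
  have hk0 : 1 ≤ k := Nat.pos_of_ne_zero (by rintro rfl; simp at hPk)
  have hO0 := hO.pos
  have hsO := sg_ge hO0
  have hC0 : 0 < a ^ (2 * f) := pow_pos ha.pos _
  have hν : 1 ≤ ν := by
    apply Nat.pos_of_ne_zero
    rintro rfl
    have := sg_ge hC0
    rw [h1] at this
    omega
  have hw0 : 1 ≤ w := by
    rw [← hw]; exact Nat.mul_pos (Nat.mul_pos hk0 hν) (by omega)
  have hPq : P ≤ q ^ 2 + q + 1 := by rw [hPk]; exact Nat.le_mul_of_pos_right _ hk0
  have hPq' : 9 * P ≤ 13 * q ^ 2 := aux8 hq3 hPq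
  have hlt := sg_pp_lt (k := 2 * f) ha ha3
  rw [h1] at hlt
  have hCq : 2 * q ^ 2 < 3 * a ^ (2 * f) := by
    have : q ^ 2 * 1 ≤ q ^ 2 * ν := Nat.mul_le_mul_left _ hν
    omega
  have hE : 1 ≤ E (a ^ (2 * f) * O) ^ 4 := Nat.one_le_pow _ _ E_pos
  by_cases hf2 : 2 ≤ f
  · have h2 := E_comp_ge ha hf2 hcop
    have h3 : a ^ (2 * f) ≤ E (a ^ (2 * f) * O) ^ 4 :=
      le_trans (Nat.le_self_pow (by norm_num) _) h2
    have h4 : P ≤ 88 * E (a ^ (2 * f) * O) ^ 4 := by omega
    calc P ≤ 88 * 1 * E (a ^ (2 * f) * O) ^ 4 := by simpa using h4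
      _ ≤ _ := Nat.mul_le_mul_right _ (Nat.mul_le_mul_left _ hw0)
  · have hf1 : f = 1 := by omega
    subst hf1
    simp only [mul_one] at *
    suffices h : P ≤ 88 * w ∨ P ≤ 3 * w * E O ^ 4 by
      rcases h with h | h
      · exact h.trans (Nat.le_mul_of_pos_right _ hE)
      · have hEO : E O ^ 4 ≤ E (a ^ 2 * O) ^ 4 := by
          apply Nat.pow_le_pow_left
          have := E_mul_ge (p := a) (g := 1) (m := O) (by simpa using hcop)
          simpa using this
        calc P ≤ 3 * w * E O ^ 4 := h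
          _ ≤ 88 * w * E (a ^ 2 * O) ^ 4 := Nat.mul_le_mul (by omega) hEO
    by_cases haR : a ∣ R
    · by_cases haw : a ∣ w
      · right
        obtain ⟨t, rfl⟩ := haR
        obtain ⟨w', rfl⟩ := haw
        have hOt : O = t * w' := by
          have : a ^ 2 * O = a ^ 2 * (t * w') := by rw [← hRw]; ring
          exact Nat.eq_of_mul_eq_mul_left (pow_pos ha.pos 2) this
        have hν2 : ν ≠ 1 := by
          rintro rfl
          rw [sg_sq ha, mul_one] at h1
          exact aux7 ha3 h1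
        have hK : 2 ≤ k * ν := by
          have h5 : 2 ≤ ν := by omega
          calc 2 = 1 * 2 := by ring
            _ ≤ k * ν := Nat.mul_le_mul hk0 h5
        have := chain O hO a (k * ν) t w' ha hK hOt hw
        have h7 : P ≤ 2 * (a * t) := by omega
        calc P ≤ 2 * (a * t) := h7
          _ = a * (2 * t) := by ring
          _ ≤ a * (3 * w' * E O ^ 4) := Nat.mul_le_mul_left _ this
          _ = 3 * (a * w') * E O ^ 4 := by ring
      · exfalso
        have h2 : w ∣ a ^ 2 * O := by rw [← hRw]; exact Dvd.intro_left _ rfl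
        have h3 : w.Coprime (a ^ 2) := Nat.Coprime.pow_right _ ((Nat.Prime.coprime_iff_not_dvd ha).2 haw).symm
        have h4 : w ∣ O := h3.dvd_of_dvd_mul_left h2
        have h5 := Nat.le_of_dvd hO0 h4
        have hν1 : ν = 1 := aux11 (s := sg O) (by omega) hk0 (by omega) hν
        rw [sg_sq ha, hν1, mul_one] at h1
        exact aux7 ha3 h1
    · left
      have h2 : a ^ 2 ∣ R * w := by rw [hRw]; exact Dvd.intro _ rfl
      have h3 : (a ^ 2).Coprime R := Nat.Coprime.pow_left _ ((Nat.Prime.coprime_iff_not_dvd ha).2 haR)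
      have h4 : a ^ 2 ∣ w := h3.dvd_of_dvd_mul_left h2
      have h5 := Nat.le_of_dvd hw0 h4
      omega

theorem core {P q L : ℕ} (hP3 : 3 ≤ P) (hPodd : P % 2 = 1) (hq : q.Prime) (hq3 : 3 ≤ q)
    (hL : Sq L) (hqL : ¬ q ∣ L) {k : ℕ} (hPk : q ^ 2 + q + 1 = P * k)
    (heq : (P + 1) * k * sg L = 2 * (q ^ 2 * L)) :
    P ^ 3 ≤ 256 * (q ^ 2 * L) * E L ^ 4 := by
  obtain ⟨R, hR⟩ : ∃ R, P + 1 = 2 * R := ⟨(P + 1) / 2, by omega⟩
  have hk0 : 1 ≤ k := Nat.pos_of_ne_zero (by rintro rfl; simp at hPk)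
  have hL0 := hL.pos
  have h1 : R * (k * sg L) = q ^ 2 * L := by
    have : 2 * (R * (k * sg L)) = 2 * (q ^ 2 * L) := by rw [← heq, hR]; ring
    exact Nat.eq_of_mul_eq_mul_left (by norm_num) this
  have hqk : ¬ q ∣ k := by
    intro h
    have h2 : q ∣ q ^ 2 + q + 1 := by rw [hPk]; exact Dvd.dvd.mul_left h P
    have h3 : q ∣ q ^ 2 + q := ⟨q + 1, by ring⟩
    have := Nat.dvd_one.1 ((Nat.dvd_add_right h3).1 h2)
    omega
  have hqR : ¬ q ∣ R := by
    rintro ⟨j, hj⟩
    have hj1 : 1 ≤ j := Nat.pos_of_ne_zero (by rintro rfl; simp at hj; omega)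
    -- k ≡ -1 mod q
    have h2 : q ∣ k + 1 := by
      have h3 : q ∣ (q ^ 2 + q + 1) + k := by
        rw [hPk]
        refine ⟨2 * j * k, ?_⟩
        have : P * k + k = (P + 1) * k := by ring
        rw [this, hR, hj]; ring
      have h4 : (q ^ 2 + q + 1) + k = q * (q + 1) + (k + 1) := by ring
      rw [h4] at h3
      exact (Nat.dvd_add_right ⟨q + 1, rfl⟩).1 h3
    have h5 := Nat.le_of_dvd (by omega) h2
    have h6 : 2 * q ≤ P + 1 := by rw [hR, hj]; nlinarith
    have h7 : (2 * q - 1) * (q - 1) ≤ P * k := Nat.mul_le_mul (by omega) (by omega)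
    rw [← hPk] at h7
    obtain ⟨c, rfl⟩ : ∃ c, q = c + 3 := ⟨q - 3, by omega⟩
    have e1 : 2 * (c + 3) - 1 = 2 * c + 5 := by omega
    have e2 : c + 3 - 1 = c + 2 := by omega
    rw [e1, e2] at h7
    have hc : c ≤ 1 := by nlinarith
    interval_cases c
    · -- q = 3
      simp at hPk
      have h8 : P ∣ 13 := ⟨k, hPk⟩
      have h9 := (Nat.dvd_prime (by norm_num : Nat.Prime 13)).1 h8
      rcases h9 with h9 | h9
      · omega
      · subst h9
        omega
    · exact absurd hq (by norm_num)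
  have hRL : R ∣ L := by
    have h2 : R ∣ q ^ 2 * L := ⟨k * sg L, h1.symm⟩
    have h3 : R.Coprime (q ^ 2) := Nat.Coprime.pow_right _ ((Nat.Prime.coprime_iff_not_dvd hq).2 hqR).symm
    exact h3.dvd_of_dvd_mul_left h2
  obtain ⟨w, hw⟩ := hRL
  have hR0 : 0 < R := by omega
  have h2 : k * sg L = q ^ 2 * w := by
    have : R * (k * sg L) = R * (q ^ 2 * w) := by rw [h1, hw]; ring
    exact Nat.eq_of_mul_eq_mul_left hR0 this
  have hw0 : 1 ≤ w := Nat.pos_of_ne_zero (by rintro rfl; simp at hw; omega)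
  have hqs : q ^ 2 ∣ sg L := by
    have h3 : q ^ 2 ∣ k * sg L := ⟨w, h2⟩
    have h4 : (q ^ 2).Coprime k := Nat.Coprime.pow_left _ ((Nat.Prime.coprime_iff_not_dvd hq).2 hqk)
    exact h4.dvd_of_dvd_mul_left h3
  have hPq : P ≤ q ^ 2 + q + 1 := by rw [hPk]; exact Nat.le_mul_of_pos_right _ hk0
  have hPq' : 9 * P ≤ 13 * q ^ 2 := aux8 hq3 hPq
  have hE : 1 ≤ E L ^ 4 := Nat.one_le_pow _ _ E_pos
  have hmain : P ≤ 88 * w * E L ^ 4 := by
    obtain ⟨a, f, O, ha, ha3, hf, hLO, hcop, hO, haq⟩ := comp hL hq ((dvd_pow_self q (by norm_num)).trans hqs)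
    have hsL : sg L = sg (a ^ (2 * f)) * sg O := by rw [hLO, sg_mul hcop]
    by_cases hq2 : q ^ 2 ∣ sg (a ^ (2 * f))
    · obtain ⟨ν, hν⟩ := hq2
      have h3 : k * ν * sg O = w := by
        have : q ^ 2 * (k * ν * sg O) = q ^ 2 * w := by rw [← h2, hsL, hν]; ring
        exact Nat.eq_of_mul_eq_mul_left (by positivity) this
      have := case_one (P := P) ha ha3 hf hq3 hO hcop hν h3 (by rw [← hLO, hw]) hPk hR
      rw [← hLO] at this
      exact this
    · obtain ⟨ν₁, hν1⟩ := haq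
      have hqν : ¬ q ∣ ν₁ := by
        rintro ⟨c, rfl⟩
        exact hq2 ⟨c, by rw [hν1]; ring⟩
      have hqO : q ∣ sg O := by
        have h3 : q * q ∣ q * (ν₁ * sg O) := by
          rw [hsL, hν1] at hqs
          have e : q * ν₁ * sg O = q * (ν₁ * sg O) := by ring
          rw [e, sq] at hqs
          exact hqs
        have h4 := Nat.dvd_of_mul_dvd_mul_left hq.pos h3
        exact ((hq.dvd_mul).1 h4).resolve_left hqν
      obtain ⟨b, h, O₂, hb, hb3, hh, hOO, hcop2, hO2, hbq⟩ := comp hO hq hqO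
      obtain ⟨ν₂, hν2⟩ := hbq
      have hsO : sg O = sg (b ^ (2 * h)) * sg O₂ := by rw [hOO, sg_mul hcop2]
      have h3 : w = k * (ν₁ * ν₂) * sg O₂ := by
        have : q ^ 2 * w = q ^ 2 * (k * (ν₁ * ν₂) * sg O₂) := by
          rw [← h2, hsL, hν1, hsO, hν2]; ring
        exact Nat.eq_of_mul_eq_mul_left (by positivity) this
      have hO20 := hO2.pos
      have hwE : P ≤ 88 * E L ^ 4 → P ≤ 88 * w * E L ^ 4 := by
        intro h5
        calc P ≤ 88 * 1 * E L ^ 4 := by simpa using h5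
          _ ≤ _ := Nat.mul_le_mul_right _ (Nat.mul_le_mul_left _ hw0)
      have hbig : ∀ c g m ν : ℕ, c.Prime → 3 ≤ c → 2 ≤ g → sg (c ^ (2 * g)) = q * ν →
          (c ^ (2 * g)) ^ 2 ≤ E L ^ 4 → P ≤ 88 * w * E L ^ 4 := by
        intro c g m ν hc hc3 hg hcν hEc
        apply hwE
        have h6 := sg_pp_lt (k := 2 * g) hc hc3
        have h7 : 1 ≤ ν := by
          apply Nat.pos_of_ne_zero
          rintro rfl
          have := sg_ge (pow_pos hc.pos (2 * g))
          have := pow_pos hc.pos (2 * g)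
          omega
        have h8 : 2 * q < 3 * c ^ (2 * g) := by
          rw [hcν] at h6
          have : q * 1 ≤ q * ν := Nat.mul_le_mul_left _ h7
          omega
        exact aux10 hPq' h8 hEc
      by_cases hf2 : 2 ≤ f
      · exact hbig a f O ν₁ ha ha3 hf2 hν1 (by rw [hLO]; exact E_comp_ge ha hf2 hcop)
      by_cases hh2 : 2 ≤ h
      · refine hbig b h O₂ ν₂ hb hb3 hh2 hν2 ?_
        have h5 := E_comp_ge hb hh2 hcop2
        rw [← hOO] at h5
        refine h5.trans (Nat.pow_le_pow_left ?_ 4)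
        rw [hLO]
        exact E_mul_ge hcop
      have hf1 : f = 1 := by omega
      have hh1 : h = 1 := by omega
      subst hf1
      subst hh1
      simp only [mul_one] at *
      rw [sg_sq ha] at hν1
      rw [sg_sq hb] at hν2
      have hRw : R * w = a ^ 2 * (b ^ 2 * O₂) := by rw [← hOO, ← hLO, hw]
      have hres : P ≤ 88 * w := by
        rcases lt_trichotomy a b with hlt | heq' | hgt
        · exact case_two ha hb hq ha3 hb3 hq3 hlt hO20 hν1 hν2 h3 hRw hPk hR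
        · exfalso
          subst heq'
          have : a ∣ Nat.gcd (a ^ 2) O := Nat.dvd_gcd (dvd_pow_self a (by norm_num))
            (by rw [hOO]; exact Dvd.dvd.mul_right (dvd_pow_self a (by norm_num)) _)
          rw [hcop] at this
          have := Nat.dvd_one.1 this
          omega
        · exact case_two hb ha hq hb3 ha3 hq3 hgt hO20 hν2 hν1 (by rw [h3]; ring) (by rw [hRw]; ring) hPk hR
      exact hres.trans (Nat.le_mul_of_pos_right _ hE)
  have h9 : 9 * (P * P) ≤ 26 * (q ^ 2 * R) := aux9 hPq' hR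
  calc P ^ 3 = (P * P) * P := by ring
    _ ≤ (P * P) * (88 * w * E L ^ 4) := Nat.mul_le_mul_left _ hmain
    _ ≤ 256 * (q ^ 2 * L) * E L ^ 4 := by
        have h10 : (P * P) * (88 * w) ≤ 256 * (q ^ 2 * L) := by
          rw [hw]
          have : 9 * ((P * P) * (88 * w)) ≤ 9 * (256 * (q ^ 2 * (R * w))) := by
            calc 9 * ((P * P) * (88 * w)) = (9 * (P * P)) * (88 * w) := by ring
              _ ≤ (26 * (q ^ 2 * R)) * (88 * w) := Nat.mul_le_mul_right _ h9
              _ = 2288 * (q ^ 2 * R * w) := by ring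
              _ ≤ 2304 * (q ^ 2 * R * w) := Nat.mul_le_mul_right _ (by norm_num)
              _ = 9 * (256 * (q ^ 2 * (R * w))) := by ring
          exact Nat.le_of_mul_le_mul_left this (by norm_num)
        calc (P * P) * (88 * w * E L ^ 4) = ((P * P) * (88 * w)) * E L ^ 4 := by ring
          _ ≤ _ := Nat.mul_le_mul_right _ h10

theorem even_sg {p v : ℕ} (hp : p.Prime) (hodd : p % 2 = 1) (h : Odd v) : 2 ∣ sg (p ^ v) := by
  rw [sg_pp hp, ← even_iff_two_dvd, Finset.even_sum_iff_even_card_odd]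
  have : (Finset.range (v + 1)).filter (fun x => Odd (p ^ x)) = Finset.range (v + 1) := by
    apply Finset.filter_true_of_mem
    intro x _
    exact (Nat.odd_iff.2 hodd).pow
  rw [this, Finset.card_range]
  exact h.add_one

theorem rd_prime_mul {P Q : ℕ} (hP : P.Prime) (h : P.Coprime Q) : rd (P * Q) = P * rd Q := by
  unfold rd
  rw [h.primeFactors_mul, Finset.prod_union h.disjoint_primeFactors, hP.primeFactors,
    Finset.prod_singleton]

theorem main (N : ℕ) (hodd : Odd N) (hperf : Nat.Perfect N) : rd N ^ 8 ≤ 256 * N ^ 5 := by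
  have hN0 : 0 < N := hperf.2
  have hs : sg N = 2 * N := (Nat.perfect_iff_sum_divisors_eq_two_mul hN0).1 hperf
  by_cases hall : ∀ p ∈ N.primeFactors, 2 ≤ N.factorization p
  · have h1 := E_rd hN0.ne' hall
    have h2 : rd N ^ 2 ≤ N := by
      calc rd N ^ 2 ≤ E N * rd N ^ 2 := Nat.le_mul_of_pos_left _ E_pos
        _ = N := h1
    calc rd N ^ 8 = (rd N ^ 2) ^ 4 := by ring
      _ ≤ N ^ 4 := Nat.pow_le_pow_left h2 4
      _ ≤ 256 * N * N ^ 4 := Nat.le_mul_of_pos_left _ (by omega)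
      _ = _ := by ring
  · push Not at hall
    obtain ⟨P, hPm, hv⟩ := hall
    have hP := Nat.prime_of_mem_primeFactors hPm
    have hPd := Nat.dvd_of_mem_primeFactors hPm
    have hpos := hP.factorization_pos_of_dvd hN0.ne' hPd
    have hv1 : N.factorization P = 1 := by omega
    have hPodd : P % 2 = 1 := Nat.odd_iff.1 (hodd.of_dvd_nat hPd)
    have hP3 : 3 ≤ P := by have := hP.two_le; omega
    obtain ⟨Q, hQ⟩ : ∃ Q, N = P * Q := hPd
    have hQ0 : 0 < Q := Nat.pos_of_ne_zero (by rintro rfl; omega)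
    have hPQ : ¬ P ∣ Q := by
      intro h
      have : P ^ 2 ∣ N := by rw [hQ, sq]; exact Nat.mul_dvd_mul_left _ h
      have := (hP.pow_dvd_iff_le_factorization hN0.ne').1 this
      omega
    have hcop : P.Coprime Q := (Nat.Prime.coprime_iff_not_dvd hP).2 hPQ
    have hoddQ : Odd Q := by rw [hQ] at hodd; exact (Nat.odd_mul.1 hodd).2
    have hsQ : (P + 1) * sg Q = 2 * (P * Q) := by
      rw [← hQ, ← hs, hQ, sg_mul hcop, sg_p hP]
    have hSq : Sq Q := by
      refine ⟨hoddQ, ?_⟩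
      intro p
      by_contra hc
      rw [Nat.not_even_iff_odd] at hc
      have hpQ : p ∈ Q.primeFactors := by
        rw [← Nat.support_factorization, Finsupp.mem_support_iff]
        rintro h0
        rw [h0] at hc
        exact absurd hc (by decide)
      have hp := Nat.prime_of_mem_primeFactors hpQ
      have hpodd : p % 2 = 1 := Nat.odd_iff.1 (hoddQ.of_dvd_nat (Nat.dvd_of_mem_primeFactors hpQ))
      have h1 : sg Q = sg (p ^ Q.factorization p) * sg (Q / p ^ Q.factorization p) := by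
        conv_lhs => rw [← Nat.ordProj_mul_ordCompl_eq_self Q p]
        exact sg_mul (Nat.Coprime.pow_left _ (Nat.coprime_ordCompl hp hQ0.ne'))
      have h2 : 2 ∣ sg Q := by
        rw [h1]
        exact Dvd.dvd.mul_right (even_sg hp hpodd hc) _
      have h3 : 2 * 2 ∣ 2 * (P * Q) := by
        rw [← hsQ]
        exact mul_dvd_mul (Nat.dvd_of_mod_eq_zero (by omega)) h2
      have h4 : 2 ∣ P * Q := Nat.dvd_of_mul_dvd_mul_left (by norm_num) h3
      rw [← hQ] at h4
      rw [Nat.odd_iff] at hodd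
      omega
    have hPs : P ∣ sg Q := by
      have h1 : P ∣ (P + 1) * sg Q := by rw [hsQ]; exact ⟨2 * Q, by ring⟩
      have h2 : P.Coprime (P + 1) := by simp
      exact h2.dvd_of_dvd_mul_left h1
    obtain ⟨q, b, L, hq, hq3, hb, hQL, hcopq, hL, hPq⟩ := comp hSq hP hPs
    have hL0 := hL.pos
    have key : P ^ 3 ≤ 256 * Q * E Q ^ 4 := by
      by_cases hb2 : 2 ≤ b
      · have h1 := E_comp_ge hq hb2 hcopq
        rw [← hQL] at h1
        have h2 := sg_pp_lt (k := 2 * b) hq hq3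
        have h3 : P ≤ sg (q ^ (2 * b)) := Nat.le_of_dvd (lt_of_lt_of_le (pow_pos hq.pos _) (sg_ge (pow_pos hq.pos _))) hPq
        have h4 : 2 * P ≤ 3 * q ^ (2 * b) := by omega
        have h5 : (2 * P) ^ 3 ≤ (3 * q ^ (2 * b)) ^ 3 := Nat.pow_le_pow_left h4 3
        have h6 : q ^ (2 * b) ≤ Q := by rw [hQL]; exact Nat.le_mul_of_pos_right _ hL0
        have h7 : q ^ (2 * b) * (q ^ (2 * b)) ^ 2 ≤ Q * E Q ^ 4 := Nat.mul_le_mul h6 h1
        have h8 : 8 * P ^ 3 ≤ 27 * (Q * E Q ^ 4) := by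
          calc 8 * P ^ 3 = (2 * P) ^ 3 := by ring
            _ ≤ (3 * q ^ (2 * b)) ^ 3 := h5
            _ = 27 * (q ^ (2 * b) * (q ^ (2 * b)) ^ 2) := by ring
            _ ≤ _ := Nat.mul_le_mul_left _ h7
        have h9 : 256 * Q * E Q ^ 4 = 256 * (Q * E Q ^ 4) := by ring
        omega
      · have hb1 : b = 1 := by omega
        subst hb1
        simp only [mul_one] at hQL hcopq hPq
        obtain ⟨k, hk⟩ := hPq
        have hqL : ¬ q ∣ L := by
          intro h
          have : q ∣ Nat.gcd (q ^ 2) L := Nat.dvd_gcd (dvd_pow_self q (by norm_num)) h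
          rw [hcopq] at this
          have := Nat.dvd_one.1 this
          omega
        have heq : (P + 1) * k * sg L = 2 * (q ^ 2 * L) := by
          have : P * ((P + 1) * k * sg L) = P * (2 * (q ^ 2 * L)) := by
            have h1 : sg Q = P * k * sg L := by rw [hQL, sg_mul hcopq, hk]
            calc P * ((P + 1) * k * sg L) = (P + 1) * (P * k * sg L) := by ring
              _ = (P + 1) * sg Q := by rw [h1]
              _ = 2 * (P * Q) := hsQ
              _ = _ := by rw [hQL]; ring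
          exact Nat.eq_of_mul_eq_mul_left hP.pos this
        have := core hP3 hPodd hq hq3 hL hqL (by rw [← sg_sq hq, hk]) heq
        have hEQ : E Q = E L := by
          rw [hQL, E_mul hcopq, E_pp hq]
          simp
        rw [hEQ, hQL]
        exact this
    have hE := E_rd hQ0.ne' hSq.two_le
    have hrd : rd N = P * rd Q := by rw [hQ, rd_prime_mul hP hcop]
    have hfin : rd N ^ 8 * E Q ^ 4 ≤ 256 * N ^ 5 * E Q ^ 4 := by
      calc rd N ^ 8 * E Q ^ 4 = P ^ 8 * (E Q * rd Q ^ 2) ^ 4 := by rw [hrd]; ring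
        _ = P ^ 8 * Q ^ 4 := by rw [hE]
        _ = P ^ 5 * Q ^ 4 * P ^ 3 := by ring
        _ ≤ P ^ 5 * Q ^ 4 * (256 * Q * E Q ^ 4) := Nat.mul_le_mul_left _ key
        _ = 256 * (P * Q) ^ 5 * E Q ^ 4 := by ring
        _ = _ := by rw [hQ]
    exact Nat.le_of_mul_le_mul_right hfin (pow_pos E_pos 4)

/-- The radical of an odd perfect number `N` satisfies `rad(N) ^ 8 ≤ 2 ^ 8 * N ^ 5`. -/
theorem result (N : ℕ) (hodd : Odd N) (hperf : Nat.Perfect N) :
    ((∏ p ∈ N.primeFactors, p : ℕ) : ℝ) ≤ 2 * (N : ℝ) ^ (5 / 8 : ℝ) := by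
  have h := main N hodd hperf
  have hN0 : (0 : ℝ) ≤ (N : ℝ) := Nat.cast_nonneg _
  have h1 : ((rd N : ℕ) : ℝ) ^ 8 ≤ (2 * (N : ℝ) ^ (5 / 8 : ℝ)) ^ 8 := by
    have h2 : (2 * (N : ℝ) ^ (5 / 8 : ℝ)) ^ 8 = 256 * (N : ℝ) ^ 5 := by
      rw [mul_pow, ← Real.rpow_natCast ((N : ℝ) ^ (5 / 8 : ℝ)) 8, ← Real.rpow_mul hN0]
      norm_num
    rw [h2]
    exact_mod_cast h
  exact le_of_pow_le_pow_left₀ (by norm_num) (by positivity) h1

end Pool.Agent.Results.MP_f02ea4_nt.RadicalBound
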