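import Mathlib
import Pool.Agent.H325R2.Opn
import Pool.Agent.H325R2.OpnTwo
import Pool.Agent.Results.MP_f02ea4_nt.IthLargestPrime
set_option autoImplicit false
namespace Pool.Agent.Results.MP_f02ea4_nt.SecondLargestPrime
open Finset Pool.Agent.H325R2.Opn Pool.Agent.H325R2.OpnTwo
open Pool.Agent.Results.MP_f02ea4_nt.IthLargestPrime (reduce main euler)

theorem sq_pt {N : ℕ} {S : Finset ℕ} (hS : ∀ q ∈ S, q.Prime ∧ Odd q ∧ Even (N.factorization q)) :
    Sq (pt N S) := by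
  have hpos : 0 < pt N S := pt_pos (fun q hq => (hS q hq).1)
  have hsq : pt N S = (∏ q ∈ S, q ^ (N.factorization q / 2)) ^ 2 := by
    unfold pt
    rw [← Finset.prod_pow]
    apply Finset.prod_congr rfl
    intro q hq
    rw [← pow_mul]
    congr 1
    obtain ⟨k, hk⟩ := (hS q hq).2.2
    omega
  refine ⟨hpos, ?_, ?_⟩
  · unfold pt
    apply Finset.prod_induction _ Odd (fun a b ha hb => ha.mul hb) odd_one
    intro q hq
    exact (hS q hq).2.1.pow
  · intro p
    rw [hsq, Nat.factorization_pow]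
    exact ⟨(∏ q ∈ S, q ^ (N.factorization q / 2)).factorization p, by simp [two_mul]⟩

theorem no_cycle {a b : ℕ} (hb3 : 3 ≤ b) (hbo : b % 2 = 1) (hao : a % 2 = 1) (hba : b < a)
    (h1 : a ∣ b ^ 2 + b + 1) (h2 : b ∣ a + 1) : False := by
  obtain ⟨k, hk⟩ := h1
  have hab : b + 2 ≤ a := by omega
  have hkb : k < b := by
    by_contra hcon
    push Not at hcon
    have : (b + 2) * b ≤ a * k := Nat.mul_le_mul hab hcon
    nlinarith
  have hd : b ∣ k + 1 := by
    have h3 : b ∣ (a + 1) * k := h2.mul_right k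
    have h4 : (a + 1) * k = b * (b + 1) + (k + 1) := by
      calc (a + 1) * k = a * k + k := by ring
        _ = (b ^ 2 + b + 1) + k := by rw [← hk]
        _ = _ := by ring
    rw [h4] at h3
    exact (Nat.dvd_add_right (Dvd.intro _ rfl)).1 h3
  have hle : b ≤ k + 1 := Nat.le_of_dvd (by omega) hd
  have hk' : b = k + 1 := by omega
  subst hk'
  have h5 : a * k = k * (k + 3) + 3 := by rw [← hk]; ring
  have h6 : k ∣ 3 := by
    have : k ∣ k * (k + 3) + 3 := by rw [← h5]; exact Dvd.intro_left _ rfl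
    exact (Nat.dvd_add_right (Dvd.intro _ rfl)).1 this
  have h7 := (Nat.dvd_prime (by norm_num : Nat.Prime 3)).1 h6
  omega

theorem five_fourths {a α : ℕ} (ha : a.Prime) (h5 : 5 ≤ a) : 4 * sg (a ^ α) < 5 * a ^ α := by
  have h1 := geom (p := a) (by omega) (α + 1)
  rw [← sg_pp ha] at h1
  obtain ⟨c, rfl⟩ : ∃ c, a = c + 1 := ⟨a - 1, by omega⟩
  simp only [Nat.add_sub_cancel] at h1
  have hc : 4 ≤ c := by omega
  have hp : 0 < (c + 1) ^ α := pow_pos (by omega) _
  have h2 : c * sg ((c + 1) ^ α) < (c + 1) * (c + 1) ^ α := by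
    rw [pow_succ] at h1
    nlinarith
  have h3 : c * (4 * sg ((c + 1) ^ α)) < c * (5 * (c + 1) ^ α) := by nlinarith
  exact lt_of_mul_lt_mul_left h3 (Nat.zero_le _)

theorem two_ne {N a b : ℕ} (hperf : Nat.Perfect N) (ha : a ∈ N.primeFactors)
    (hb : b ∈ N.primeFactors) (hba : b < a) (hb3 : 3 ≤ b) (ha5 : 5 ≤ a) :
    ({a, b} : Finset ℕ) ≠ N.primeFactors := by
  intro h
  have hN0 : 0 < N := hperf.2
  have hs : sg N = 2 * N := (Nat.perfect_iff_sum_divisors_eq_two_mul hN0).1 hperf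
  have hap := Nat.prime_of_mem_primeFactors ha
  have hbp := Nat.prime_of_mem_primeFactors hb
  have h1 : N = a ^ N.factorization a * b ^ N.factorization b := by
    conv_lhs => rw [← Nat.prod_factorization_pow_eq_self hN0.ne']
    rw [Finsupp.prod, Nat.support_factorization, ← h, Finset.prod_pair hba.ne']
  have hcop : (a ^ N.factorization a).Coprime (b ^ N.factorization b) :=
    Nat.Coprime.pow _ _ ((Nat.coprime_primes hap hbp).2 hba.ne')
  have h2 := five_fourths (α := N.factorization a) hap ha5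
  have h3 := sg_pp_lt (k := N.factorization b) hbp hb3
  set x := a ^ N.factorization a
  set y := b ^ N.factorization b
  have h4 : sg x * sg y = 2 * (x * y) := by
    rw [← sg_mul hcop, ← h1, hs]
  have h5 : (4 * sg x) * (2 * sg y) ≤ (5 * x) * (3 * y) := Nat.mul_le_mul h2.le h3.le
  have hx : 0 < x := pow_pos hap.pos _
  have hy : 0 < y := pow_pos hbp.pos _
  have : 0 < x * y := Nat.mul_pos hx hy
  nlinarith

/-- the core inequality for the exponent patterns `(1,2)` and `(2,1)` -/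
theorem pattern12 {a b M : ℕ} (ha : a.Prime) (hb : b.Prime) (hbo : b % 2 = 1) (hao : a % 2 = 1)
    (hb3 : 3 ≤ b) (hba : b < a) (hM : Sq M) (hM1 : 1 < M) (hcop : (a * b ^ 2).Coprime M)
    (hperf : sg (a * b ^ 2 * M) = 2 * (a * b ^ 2 * M)) (hA : b ^ 2 ≤ 16 * M)
    (hδ : (sg (a * b ^ 2) - a * b ^ 2) * (b - 2) ≤ 2 * (a * b ^ 2)) : b ^ 5 ≤ 3000 * M ^ 2 := by
  have hG1 : 1 < a * b ^ 2 := by
    have := Nat.mul_le_mul ha.two_le (Nat.one_le_iff_ne_zero.2 (pow_ne_zero 2 hb.ne_zero))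
    omega
  obtain ⟨G', H', t, hG'1, hGH', hHG, hG'd, hsM, h2M, ht⟩ := reduce hG1 hM1 hcop hperf
  have hGH := sg_gt hG1
  have hcab : a.Coprime (b ^ 2) := Nat.Coprime.pow_right _ ((Nat.coprime_primes ha hb).2 hba.ne')
  have hsgG : sg (a * b ^ 2) = (a + 1) * (b ^ 2 + b + 1) := by
    rw [sg_mul hcab, sg_p ha, sg_sq hb]
  have hb0 := hb.pos
  have ha0 := ha.pos
  obtain ⟨x, y, hx, hy, hxy⟩ := (Nat.dvd_mul).1 hG'd
  have hx' := (Nat.dvd_prime ha).1 hx
  obtain ⟨j, hj, hyj⟩ := (Nat.dvd_prime_pow hb).1 hy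
  have hG't : G' * t ≤ 2 * M := by rw [h2M]; exact Nat.mul_le_mul_right _ hGH'.le
  have hG'2M : G' ≤ 2 * M := le_trans (Nat.le_mul_of_pos_right _ ht) hG't
  have hcase : (x = 1 ∧ y = 1) ∨ (x = 1 ∧ y = b) ∨ (x = 1 ∧ y = b ^ 2) ∨ (x = a ∧ y = 1) ∨
      (x = a ∧ y = b) ∨ (x = a ∧ y = b ^ 2) := by
    have hj' : j = 0 ∨ j = 1 ∨ j = 2 := by omega
    rcases hj' with h | h | h <;> rw [h] at hyj <;> (try simp only [pow_zero, pow_one] at hyj) <;>
      rcases hx' with h' | h' <;> simp [h', hyj]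
  rcases hcase with ⟨h1, h2⟩ | ⟨h1, h2⟩ | ⟨h1, h2⟩ | ⟨h1, h2⟩ | ⟨h1, h2⟩ | ⟨h1, h2⟩
  · exfalso; rw [h1, h2] at hxy; omega
  · -- G' = b
    exfalso
    rw [h1, h2, one_mul] at hxy
    rw [← hxy, hsgG] at hHG
    have h3 : H' * (a * b) = (a + 1) * (b ^ 2 + b + 1) := by
      have : b * (H' * (a * b)) = b * ((a + 1) * (b ^ 2 + b + 1)) := by
        rw [← hHG]; ring
      exact Nat.eq_of_mul_eq_mul_left hb0 this
    have h4 : a ∣ (a + 1) * (b ^ 2 + b + 1) := by
      rw [← h3]; exact ⟨H' * b, by ring⟩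
    have h5 : b ∣ (a + 1) * (b ^ 2 + b + 1) := by
      rw [← h3]; exact ⟨H' * a, by ring⟩
    have h6 : a ∣ b ^ 2 + b + 1 := by
      rcases (ha.dvd_mul).1 h4 with h | h
      · exfalso
        have := (Nat.dvd_add_right (dvd_refl a)).1 h
        exact ha.one_lt.ne' (Nat.dvd_one.1 this)
      · exact h
    have h7 : b ∣ a + 1 := by
      rcases (hb.dvd_mul).1 h5 with h | h
      · exact h
      · exfalso
        have h8 : b ∣ b ^ 2 + b := ⟨b + 1, by ring⟩
        have := (Nat.dvd_add_right h8).1 h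
        exact hb.one_lt.ne' (Nat.dvd_one.1 this)
    exact no_cycle hb3 hbo hao hba h6 h7
  · -- G' = b ^ 2
    rw [h1, h2, one_mul] at hxy
    exact two_main (q₁ := b) (q₂ := b) hM (by omega) hGH hGH' hb hb (by rw [← hxy]; ring) hHG hsM
      h2M le_rfl le_rfl hδ hA
  · -- G' = a
    rw [h1, h2, mul_one] at hxy
    rw [← hxy] at hHG hsM hGH' hG't hG'2M
    have h3 : H' * b ^ 2 = (a + 1) * (b ^ 2 + b + 1) := by
      have : a * (H' * b ^ 2) = a * ((a + 1) * (b ^ 2 + b + 1)) := by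
        rw [hsgG] at hHG
        rw [← hHG]; ring
      exact Nat.eq_of_mul_eq_mul_left ha0 this
    have hcb : (b ^ 2).Coprime (b ^ 2 + b + 1) := by
      apply Nat.Coprime.pow_left
      rw [Nat.Prime.coprime_iff_not_dvd hb]
      intro h
      have h8 : b ∣ b ^ 2 + b := ⟨b + 1, by ring⟩
      have := (Nat.dvd_add_right h8).1 h
      exact hb.one_lt.ne' (Nat.dvd_one.1 this)
    have h4 : b ^ 2 ∣ a + 1 := by
      apply hcb.dvd_of_dvd_mul_right
      rw [← h3]; exact Dvd.intro_left _ rfl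
    obtain ⟨k, hk⟩ := h4
    have h5 : b ^ 2 ≤ a := by
      have hk1 : k ≠ 0 := by rintro rfl; omega
      have hb2o : (b ^ 2) % 2 = 1 := Nat.odd_iff.1 ((Nat.odd_iff.2 hbo).pow)
      have : b ^ 2 ≤ b ^ 2 * k := Nat.le_mul_of_pos_right _ (by omega)
      omega
    obtain ⟨r, f, w, hr, hr3, -, -, hMw, hcw, hrw, hw, hdr⟩ :=
      compSq hM ha (hsM ▸ Dvd.intro _ rfl)
    obtain ⟨u, hu⟩ := hdr
    have ht' : t = u * sg w := by
      have h1 : a * t = a * (u * sg w) := by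
        rw [← hsM, hMw, sg_mul hcw, hu]; ring
      exact Nat.eq_of_mul_eq_mul_left ha0 h1
    have h6 : 2 * (r ^ f * w) = H' * (u * sg w) := by rw [← hMw, ← ht']; exact h2M
    have h7 := key1 hr hr3 hw.1 hrw (by omega) hGH ha0 hu hHG h6
    rw [← ht'] at h7
    apply final_num hA
    left
    set G := a * b ^ 2
    have h8 : G * (b - 2) ≤ G * (6 * t) := by
      calc G * (b - 2) ≤ (3 * t * (sg G - G)) * (b - 2) := Nat.mul_le_mul_right _ h7
        _ = 3 * t * ((sg G - G) * (b - 2)) := by ring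
        _ ≤ 3 * t * (2 * G) := Nat.mul_le_mul_left _ hδ
        _ = _ := by ring
    have h9 : b - 2 ≤ 6 * t := Nat.le_of_mul_le_mul_left h8 (by omega)
    calc b ^ 2 * (b - 2) ≤ a * (6 * t) := Nat.mul_le_mul h5 h9
      _ = 6 * (a * t) := by ring
      _ ≤ 6 * (2 * M) := Nat.mul_le_mul_left _ hG't
      _ ≤ _ := by omega
  · -- G' = a b
    rw [h1, h2] at hxy
    exact two_main (q₁ := a) (q₂ := b) hM (by omega) hGH hGH' ha hb hxy.symm hHG hsM
      h2M hba.le le_rfl hδ hA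
  · -- G' = a b ^ 2
    rw [h1, h2] at hxy
    have h3 : b ^ 3 ≤ 2 * M := by
      calc b ^ 3 = b * b ^ 2 := by ring
        _ ≤ a * b ^ 2 := Nat.mul_le_mul_right _ hba.le
        _ = G' := hxy
        _ ≤ _ := hG'2M
    calc b ^ 5 ≤ b ^ 6 := Nat.pow_le_pow_right hb0 (by norm_num)
      _ = (b ^ 3) ^ 2 := by ring
      _ ≤ (2 * M) ^ 2 := Nat.pow_le_pow_left h3 2
      _ = 4 * M ^ 2 := by ring
      _ ≤ _ := Nat.mul_le_mul_right _ (by norm_num)

theorem pattern21 {a b M : ℕ} (ha : a.Prime) (hb : b.Prime) (hbo : b % 2 = 1) (hao : a % 2 = 1)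
    (hba : b < a) (hM : Sq M) (hM1 : 1 < M) (hcop : (a ^ 2 * b).Coprime M)
    (hperf : sg (a ^ 2 * b * M) = 2 * (a ^ 2 * b * M)) (hA : b ^ 2 ≤ 16 * M)
    (hδ : (sg (a ^ 2 * b) - a ^ 2 * b) * (b - 2) ≤ 2 * (a ^ 2 * b)) : b ^ 5 ≤ 3000 * M ^ 2 := by
  have hb0 := hb.pos
  have ha0 := ha.pos
  have hG1 : 1 < a ^ 2 * b := by
    have := Nat.mul_le_mul (Nat.one_le_iff_ne_zero.2 (pow_ne_zero 2 ha.ne_zero)) hb.two_le
    omega
  obtain ⟨G', H', t, hG'1, hGH', hHG, hG'd, hsM, h2M, ht⟩ := reduce hG1 hM1 hcop hperf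
  have hGH := sg_gt hG1
  have hcab : (a ^ 2).Coprime b := Nat.Coprime.pow_left _ ((Nat.coprime_primes ha hb).2 hba.ne')
  have hsgG : sg (a ^ 2 * b) = (a ^ 2 + a + 1) * (b + 1) := by
    rw [sg_mul hcab, sg_p hb, sg_sq ha]
  have hG't : G' * t ≤ 2 * M := by rw [h2M]; exact Nat.mul_le_mul_right _ hGH'.le
  have hG'2M : G' ≤ 2 * M := le_trans (Nat.le_mul_of_pos_right _ ht) hG't
  have hc1 : (a ^ 2).Coprime ((a ^ 2 + a + 1) * (b + 1)) := by
    apply Nat.Coprime.pow_left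
    rw [Nat.Prime.coprime_iff_not_dvd ha]
    intro h
    rcases (ha.dvd_mul).1 h with h | h
    · have h8 : a ∣ a ^ 2 + a := ⟨a + 1, by ring⟩
      have := (Nat.dvd_add_right h8).1 h
      exact ha.one_lt.ne' (Nat.dvd_one.1 this)
    · have := Nat.le_of_dvd (by omega) h
      omega
  have h3 : a ^ 2 ∣ G' := by
    rw [hsgG] at hHG
    apply hc1.dvd_of_dvd_mul_right
    rw [← hHG]
    exact ⟨H' * b, by ring⟩
  obtain ⟨y, hy⟩ := h3
  have hyb : y ∣ b := by
    rw [hy] at hG'd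
    exact Nat.dvd_of_mul_dvd_mul_left (pow_pos ha0 2) hG'd
  rcases (Nat.dvd_prime hb).1 hyb with h | h
  · rw [h, mul_one] at hy
    exact two_main (q₁ := a) (q₂ := a) hM (by omega) hGH hGH' ha ha (by rw [hy]; ring) hHG hsM
      h2M hba.le hba.le hδ hA
  · rw [h] at hy
    have h3 : b ^ 3 ≤ 2 * M := by
      calc b ^ 3 = b ^ 2 * b := by ring
        _ ≤ a ^ 2 * b := Nat.mul_le_mul_right _ (Nat.pow_le_pow_left hba.le 2)
        _ = G' := hy.symm
        _ ≤ _ := hG'2M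
    calc b ^ 5 ≤ b ^ 6 := Nat.pow_le_pow_right hb0 (by norm_num)
      _ = (b ^ 3) ^ 2 := by ring
      _ ≤ (2 * M) ^ 2 := Nat.pow_le_pow_left h3 2
      _ = 4 * M ^ 2 := by ring
      _ ≤ _ := Nat.mul_le_mul_right _ (by norm_num)

theorem main2 (N : ℕ) (hodd : Odd N) (hperf : Nat.Perfect N) (a b : ℕ)
    (ha : a ∈ N.primeFactors) (hb : b ∈ N.primeFactors) (hba : b < a) :
    a ^ 2 * b ^ 9 ≤ 3000 * N ^ 2 := by
  classical
  have hN0 : 0 < N := hperf.2
  have hs : sg N = 2 * N := (Nat.perfect_iff_sum_divisors_eq_two_mul hN0).1 hperf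
  have hap := Nat.prime_of_mem_primeFactors ha
  have hbp := Nat.prime_of_mem_primeFactors hb
  have hao : a % 2 = 1 := Nat.odd_iff.1 (hodd.of_dvd_nat (Nat.dvd_of_mem_primeFactors ha))
  have hbo : b % 2 = 1 := Nat.odd_iff.1 (hodd.of_dvd_nat (Nat.dvd_of_mem_primeFactors hb))
  have hb3 : 3 ≤ b := by have := hbp.two_le; omega
  have ha5 : 5 ≤ a := by omega
  have ha0 := hap.pos
  have hb0 := hbp.pos
  have hne := two_ne hperf ha hb hba hb3 ha5
  have hT : ({a, b} : Finset ℕ) ⊆ N.primeFactors := by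
    intro x hx
    simp only [Finset.mem_insert, Finset.mem_singleton] at hx
    rcases hx with rfl | rfl
    · exact ha
    · exact hb
  have hTp : ∀ q ∈ ({a, b} : Finset ℕ), q.Prime := fun q hq =>
    Nat.prime_of_mem_primeFactors (hT hq)
  have hX : ∀ q ∈ ({a, b} : Finset ℕ), b ≤ q := by
    intro x hx
    simp only [Finset.mem_insert, Finset.mem_singleton] at hx
    rcases hx with rfl | rfl
    · exact hba.le
    · exact le_rfl
  have hmain := main N hodd hperf {a, b} hT ⟨a, by simp⟩ hne b hX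
  have hcard : ({a, b} : Finset ℕ).card = 2 := Finset.card_pair hba.ne'
  have hpt : pt N {a, b} = a ^ N.factorization a * b ^ N.factorization b := by
    unfold pt; rw [Finset.prod_pair hba.ne']
  set U := N.primeFactors \ {a, b} with hU
  have hUs : U ⊆ N.primeFactors := Finset.sdiff_subset
  have hUp : ∀ q ∈ U, q.Prime := fun q hq => Nat.prime_of_mem_primeFactors (hUs hq)
  have hUne : U.Nonempty := by
    rw [hU, Finset.sdiff_nonempty]
    intro h
    exact hne (Finset.Subset.antisymm hT h)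
  have hsplit : pt N {a, b} * pt N U = N := pt_split hN0.ne' hT
  have hcop : (pt N {a, b}).Coprime (pt N U) := pt_coprime hTp hUp Finset.disjoint_sdiff
  have hM1 : 1 < pt N U := one_lt_pt hUs hUne
  have hδ0 := sg_pt_le (N := N) (X := b) {a, b} (fun q hq => ⟨hTp q hq, hX q hq⟩)
  rw [hcard] at hδ0 hmain
  have hva : 0 < N.factorization a :=
    hap.factorization_pos_of_dvd hN0.ne' (Nat.dvd_of_mem_primeFactors ha)
  have hvb : 0 < N.factorization b :=
    hbp.factorization_pos_of_dvd hN0.ne' (Nat.dvd_of_mem_primeFactors hb)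
  have hG1 : 1 < pt N {a, b} := one_lt_pt hT ⟨a, by simp⟩
  have hGH : pt N {a, b} < sg (pt N {a, b}) := sg_gt hG1
  have hδ : (sg (pt N {a, b}) - pt N {a, b}) * (b - 2) ≤ 2 * pt N {a, b} := by
    set G := pt N {a, b}
    obtain ⟨δ, hδ⟩ : ∃ δ, sg G = G + δ := ⟨sg G - G, by omega⟩
    obtain ⟨Z, hZ⟩ : ∃ Z, b = Z + 2 := ⟨b - 2, by omega⟩
    rw [hδ] at hδ0 ⊢
    rw [hZ] at hδ0 ⊢
    simp only [Nat.add_sub_cancel, Nat.add_sub_cancel_left]
    nlinarith
  have hMA : b ^ 2 ≤ 16 * pt N U := by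
    have h1 : pt N {a, b} * b ^ 2 ≤ pt N {a, b} * (16 * pt N U) := by
      calc pt N {a, b} * b ^ 2 = b ^ 2 * pt N {a, b} := by ring
        _ ≤ 8 * 2 * N := hmain
        _ = 8 * 2 * (pt N {a, b} * pt N U) := by rw [hsplit]
        _ = _ := by ring
    exact Nat.le_of_mul_le_mul_left h1 (by omega)
  have hsm : sg (pt N {a, b} * pt N U) = 2 * (pt N {a, b} * pt N U) := by rw [hsplit]; exact hs
  have hN2 : N ^ 2 = pt N {a, b} ^ 2 * pt N U ^ 2 := by
    conv_lhs => rw [← hsplit]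
    ring
  set M := pt N U with hMdef
  -- squareness of M when the special prime is in {a, b}
  have hSq : (Odd (N.factorization a) ∨ Odd (N.factorization b)) → Sq M := by
    intro h
    apply sq_pt
    intro q hq
    have hqN := hUs hq
    refine ⟨hUp q hq, hodd.of_dvd_nat (Nat.dvd_of_mem_primeFactors hqN), ?_⟩
    by_contra hcon
    rw [Nat.not_even_iff_odd] at hcon
    have hqab : q ≠ a ∧ q ≠ b := by
      rw [hU, Finset.mem_sdiff] at hq
      simp only [Finset.mem_insert, Finset.mem_singleton, not_or] at hq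
      exact hq.2
    rcases h with h | h
    · exact euler hodd hperf hqN ha hqab.1 hcon h
    · exact euler hodd hperf hqN hb hqab.2 hcon h
  have h16 : (b ^ 2) ^ 2 ≤ (16 * M) ^ 2 := Nat.pow_le_pow_left hMA 2
  -- generic bound from a lower bound on the T-part
  have hgen : ∀ L : ℕ, L ≤ pt N {a, b} → a ^ 2 * b ^ 5 ≤ L ^ 2 → a ^ 2 * b ^ 9 ≤ 3000 * N ^ 2 := by
    intro L hL hL2
    calc a ^ 2 * b ^ 9 = (a ^ 2 * b ^ 5) * (b ^ 2) ^ 2 := by ring
      _ ≤ L ^ 2 * (16 * M) ^ 2 := Nat.mul_le_mul hL2 h16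
      _ ≤ (pt N {a, b}) ^ 2 * (16 * M) ^ 2 :=
        Nat.mul_le_mul_right _ (Nat.pow_le_pow_left hL 2)
      _ = 256 * (pt N {a, b} ^ 2 * M ^ 2) := by ring
      _ = 256 * N ^ 2 := by rw [← hN2]
      _ ≤ _ := Nat.mul_le_mul_right _ (by norm_num)
  rcases Nat.lt_or_ge (N.factorization b) 3 with hβ | hβ
  · rcases Nat.lt_or_ge (N.factorization a) 3 with hα | hα
    · -- small exponents
      have hβ' : N.factorization b = 1 ∨ N.factorization b = 2 := by omega
      have hα' : N.factorization a = 1 ∨ N.factorization a = 2 := by omega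
      rcases hα' with hα' | hα' <;> rcases hβ' with hβ' | hβ'
      · exfalso
        exact euler hodd hperf ha hb hba.ne' (by rw [hα']; exact odd_one)
          (by rw [hβ']; exact odd_one)
      · have hG : pt N {a, b} = a * b ^ 2 := by rw [hpt, hα', hβ', pow_one]
        have hsq := hSq (Or.inl (by rw [hα']; exact odd_one))
        rw [hG] at hsm hcop hδ hN2
        have h5 := pattern12 hap hbp hbo hao hb3 hba hsq hM1 hcop hsm hMA hδ
        calc a ^ 2 * b ^ 9 = (a * b ^ 2) ^ 2 * b ^ 5 := by ring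
          _ ≤ (a * b ^ 2) ^ 2 * (3000 * M ^ 2) := Nat.mul_le_mul_left _ h5
          _ = 3000 * ((a * b ^ 2) ^ 2 * M ^ 2) := by ring
          _ = _ := by rw [← hN2]
      · have hG : pt N {a, b} = a ^ 2 * b := by rw [hpt, hα', hβ', pow_one]
        have hsq := hSq (Or.inr (by rw [hβ']; exact odd_one))
        rw [hG] at hsm hcop hδ hN2
        have h5 := pattern21 hap hbp hbo hao hba hsq hM1 hcop hsm hMA hδ
        calc a ^ 2 * b ^ 9 = (a ^ 2 * b ^ 2) * b ^ 2 * b ^ 5 := by ring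
          _ ≤ (a ^ 2 * b ^ 2) * a ^ 2 * b ^ 5 := by
            apply Nat.mul_le_mul_right
            exact Nat.mul_le_mul_left _ (Nat.pow_le_pow_left hba.le 2)
          _ = (a ^ 2 * b) ^ 2 * b ^ 5 := by ring
          _ ≤ (a ^ 2 * b) ^ 2 * (3000 * M ^ 2) := Nat.mul_le_mul_left _ h5
          _ = 3000 * ((a ^ 2 * b) ^ 2 * M ^ 2) := by ring
          _ = _ := by rw [← hN2]
      · apply hgen (a ^ 2 * b ^ 2)
        · rw [hpt, hα', hβ']
        · calc a ^ 2 * b ^ 5 = (a ^ 2 * b ^ 4) * b := by ring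
            _ ≤ (a ^ 2 * b ^ 4) * a ^ 2 := by
              apply Nat.mul_le_mul_left
              exact hba.le.trans (Nat.le_self_pow (by norm_num) a)
            _ = _ := by ring
    · apply hgen (a ^ 3 * b)
      · rw [hpt]
        exact Nat.mul_le_mul (Nat.pow_le_pow_right ha0 hα) (Nat.le_self_pow hvb.ne' b)
      · calc a ^ 2 * b ^ 5 = (a ^ 2 * b ^ 2) * b ^ 3 := by ring
          _ ≤ (a ^ 2 * b ^ 2) * a ^ 4 := by
            apply Nat.mul_le_mul_left
            exact (Nat.pow_le_pow_left hba.le 3).trans (Nat.pow_le_pow_right ha0 (by norm_num))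
          _ = _ := by ring
  · apply hgen (a * b ^ 3)
    · rw [hpt]
      exact Nat.mul_le_mul (Nat.le_self_pow hva.ne' a) (Nat.pow_le_pow_right hb0 hβ)
    · calc a ^ 2 * b ^ 5 ≤ a ^ 2 * b ^ 6 :=
            Nat.mul_le_mul_left _ (Nat.pow_le_pow_right hb0 (by norm_num))
        _ = _ := by ring

/-- If `a > b` are two prime factors of an odd perfect number `N` then `a ^ 2 b ^ 9 ≤ 3000 N ^ 2`;
in particular the second largest prime factor is `O(N ^ (2/11))` and the product of the two largest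
prime factors is `O(N ^ (13/27))`. -/
theorem result (N : ℕ) (hodd : Odd N) (hperf : Nat.Perfect N) (a b : ℕ)
    (ha : a ∈ N.primeFactors) (hb : b ∈ N.primeFactors) (hba : b < a) :
    a ^ 2 * b ^ 9 ≤ 3000 * N ^ 2 ∧ b ^ 11 ≤ 3000 * N ^ 2 ∧
      (a * b) ^ 27 ≤ 3000 ^ 3 * 8 ^ 7 * N ^ 13 := by
  have h := main2 N hodd hperf a b ha hb hba
  refine ⟨h, ?_, ?_⟩
  · calc b ^ 11 = b ^ 2 * b ^ 9 := by ring
      _ ≤ a ^ 2 * b ^ 9 := Nat.mul_le_mul_right _ (Nat.pow_le_pow_left hba.le 2)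
      _ ≤ _ := h
  · have h1 := (IthLargestPrime.result N hodd hperf {a} (by simpa using ha) ⟨a, by simp⟩ (by
      intro h
      rw [← h] at hb
      simp only [Finset.mem_singleton] at hb
      omega) a (by simp)).2
    simp only [Finset.card_singleton] at h1
    calc (a * b) ^ 27 = (a ^ 2 * b ^ 9) ^ 3 * (a ^ (2 * 1 + 1)) ^ 7 := by ring
      _ ≤ (3000 * N ^ 2) ^ 3 * (8 * 1 * N) ^ 7 :=
        Nat.mul_le_mul (Nat.pow_le_pow_left h 3) (Nat.pow_le_pow_left h1 7)
      _ = _ := by ring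

end Pool.Agent.Results.MP_f02ea4_nt.SecondLargestPrime
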